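import Pool.Agent.H65.CP.Main
import Pool.Agent.H99.Jump.Final

/-!
# The lower bound for the counting function
-/

open Finset PowerSeries Filter Topology
open Pool.Agent.H99.Inc Pool.Agent.H99.Jump

namespace Pool.Agent.H65.CP

theorem pow_ge {N : ℕ} (hN : 4 ≤ N) : 1 / 16 ≤ (1 - 1 / (N : ℝ)) ^ (2 * N) := by
  have hN0 : (4 : ℝ) ≤ N := by exact_mod_cast hN
  have h0 : 0 < 1 - 1 / (N : ℝ) := by
    have : 1 / (N : ℝ) ≤ 1 / 4 := one_div_le_one_div_of_le (by norm_num) hN0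
    linarith
  have h1 := Real.one_sub_inv_le_log_of_pos h0
  have h2 : -(4 / 3 : ℝ) ≤ N * Real.log (1 - 1 / (N : ℝ)) := by
    have h3 : 1 - (1 - 1 / (N : ℝ))⁻¹ = -(1 / ((N : ℝ) - 1)) := by
      have : (N : ℝ) - 1 ≠ 0 := by linarith
      have : (N : ℝ) ≠ 0 := by linarith
      field_simp
      ring
    rw [h3] at h1
    have h4 : (N : ℝ) * -(1 / ((N : ℝ) - 1)) ≤ N * Real.log (1 - 1 / (N : ℝ)) :=
      mul_le_mul_of_nonneg_left h1 (by linarith)
    refine le_trans ?_ h4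
    rw [mul_neg, neg_le_neg_iff, mul_one_div, div_le_iff₀ (by linarith)]
    linarith
  have h3 : (1 - 1 / (N : ℝ)) ^ (2 * N) = Real.exp (2 * (N * Real.log (1 - 1 / (N : ℝ)))) := by
    rw [← Real.exp_log (pow_pos h0 (2 * N)), Real.log_pow]
    congr 1
    push_cast
    ring
  rw [h3, ← Real.log_le_iff_le_exp (by norm_num)]
  have h4 : Real.log (1 / 16 : ℝ) = -(4 * Real.log 2) := by
    rw [one_div, Real.log_inv]
    congr 1
    rw [show (16 : ℝ) = 2 ^ 4 by norm_num, Real.log_pow]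
    norm_num
  rw [h4]
  have h5 := Real.log_two_gt_d9
  linarith

theorem nat_mul_pow (K : ℕ) : (K : ℝ) * 49 ^ K ≤ 100 ^ K := by
  have h1 : (K : ℝ) ≤ 2 ^ K := by
    have := (Nat.lt_two_pow_self (n := K)).le
    exact_mod_cast this
  calc (K : ℝ) * 49 ^ K ≤ 2 ^ K * 49 ^ K := mul_le_mul_of_nonneg_right h1 (by positivity)
    _ = (98 : ℝ) ^ K := by rw [← mul_pow]; norm_num
    _ ≤ 100 ^ K := pow_le_pow_left₀ (by norm_num) (by norm_num) K

/-- The main bound. -/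
theorem main_bound {k : ℕ} (hk : 5 ≤ k) : ∃ C > 0, ∀ (A : Set ℕ) (N K : ℕ), 4 ≤ N → 1 ≤ K →
    ∀ T : ℝ, 0 < T → ∑' n, |inc A k n| * (1 - 1 / (N : ℝ)) ^ n ≤ T →
      ((AN A N).card : ℝ) ^ 2 ≤ C * ((T ^ (2 / (k : ℝ))) ^ 2 * (K : ℝ) ^ (-(2 * (2 / (k : ℝ)))) +
        (T ^ (2 / (k : ℝ))) ^ (11 / 6 : ℝ) * 100 ^ K) := by
  have hk1 : (5 : ℝ) ≤ k := by exact_mod_cast hk
  have hk0 : (0 : ℝ) < k := by linarith
  obtain ⟨β, hβ⟩ : ∃ β : ℝ, β = 1 / (k : ℝ) := ⟨_, rfl⟩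
  have hβ0 : 0 < β := by rw [hβ]; positivity
  have hβ1 : β ≤ 1 / 5 := by
    rw [hβ]
    exact one_div_le_one_div_of_le (by norm_num) hk1
  have h2β : 2 / (k : ℝ) = 2 * β := by rw [hβ]; ring
  obtain ⟨C, hC, hU⟩ := exists_U hβ0 (by linarith)
  obtain ⟨C2, hC2⟩ : ∃ C2 : ℝ, C2 = 16 * (Real.sqrt C * (64 * C) ^ (5 / 6 : ℝ)) := ⟨_, rfl⟩
  have hC20 : 0 < C2 := by
    rw [hC2]
    have := Real.sqrt_pos.2 hC
    positivity
  refine ⟨16 * 64 * 2 * C + C2, by positivity, fun A N K hN hK T hT hT1 => ?_⟩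
  have hN0 : (4 : ℝ) ≤ N := by exact_mod_cast hN
  have hK0 : (0 : ℝ) < K := by exact_mod_cast hK
  have hK1 : (1 : ℝ) ≤ K := by exact_mod_cast hK
  have hρ : 1 / (N : ℝ) ≤ 1 / 4 := one_div_le_one_div_of_le (by norm_num) hN0
  have hρ' : 0 < 1 / (N : ℝ) := by positivity
  obtain ⟨hU1, hU2⟩ := hU (1 - 1 / (N : ℝ)) (by linarith) (by linarith)
  rw [hβ] at hU1 hU2
  obtain ⟨m, hm, ha⟩ := core A hk (by linarith : 0 ≤ 1 - 1 / (N : ℝ)) (by linarith) (pow_ge hN) hK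
    hT hT1 hC hU1 hU2
  rw [← hβ] at hm ha
  rw [h2β]
  obtain ⟨W, hW⟩ : ∃ W : ℝ, W = T ^ (2 * β) := ⟨_, rfl⟩
  have hW0 : 0 < W := by rw [hW]; exact Real.rpow_pos_of_pos hT _
  rw [← hW] at hm ha ⊢
  -- the size of the exceptional set
  obtain ⟨X, hX⟩ : ∃ X : ℝ, X = (64 * C) * W * (K * 49 ^ K) := ⟨_, rfl⟩
  have hX0 : 0 < X := by rw [hX]; positivity
  have h1 : (m : ℝ) ^ (3 / 5 : ℝ) ≤ X := by
    rcases Nat.eq_zero_or_pos m with h0 | h0
    · rw [h0, Nat.cast_zero, Real.zero_rpow (by norm_num)]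
      exact hX0.le
    · have hm0 : (0 : ℝ) < m := by exact_mod_cast h0
      have hm1 : (1 : ℝ) ≤ m := by exact_mod_cast h0
      have h2 : (m : ℝ) ^ (3 / 5 : ℝ) ≤ (m : ℝ) ^ (1 - 2 * β) :=
        Real.rpow_le_rpow_of_exponent_le hm1 (by linarith)
      refine h2.trans ?_
      rw [Real.rpow_sub hm0, Real.rpow_one, div_le_iff₀ (Real.rpow_pos_of_pos hm0 _), hX]
      have h3 : (7 : ℝ) ^ (2 * K) = 49 ^ K := by
        rw [pow_mul]
        norm_num
      rw [h3] at hm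
      linarith
  have h2 : (m : ℝ) ≤ X ^ (5 / 3 : ℝ) := by
    have h3 := Real.rpow_le_rpow (Real.rpow_nonneg (Nat.cast_nonneg m) _) h1
      (by norm_num : (0 : ℝ) ≤ 5 / 3)
    rw [← Real.rpow_mul (Nat.cast_nonneg m)] at h3
    norm_num at h3
    exact h3
  have h3 : Real.sqrt (m * (W ^ 2 * C)) ≤
      Real.sqrt C * (64 * C) ^ (5 / 6 : ℝ) * (W ^ (11 / 6 : ℝ) * 100 ^ K) := by
    have h4 : Real.sqrt (m * (W ^ 2 * C)) ≤ Real.sqrt (X ^ (5 / 3 : ℝ) * (W ^ 2 * C)) :=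
      Real.sqrt_le_sqrt (mul_le_mul_of_nonneg_right h2 (by positivity))
    refine h4.trans ?_
    have h5 : Real.sqrt (X ^ (5 / 3 : ℝ) * (W ^ 2 * C)) = X ^ (5 / 6 : ℝ) * (W * Real.sqrt C) := by
      rw [Real.sqrt_mul (by positivity), Real.sqrt_mul (by positivity), Real.sqrt_sq hW0.le,
        Real.sqrt_eq_rpow, ← Real.rpow_mul hX0.le]
      norm_num
    rw [h5, hX, Real.mul_rpow (by positivity) (by positivity),
      Real.mul_rpow (by positivity) (by positivity)]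
    have h6 : ((K : ℝ) * 49 ^ K) ^ (5 / 6 : ℝ) ≤ 100 ^ K := by
      have h7 : (1 : ℝ) ≤ K * 49 ^ K := by
        have : (1 : ℝ) ≤ 49 ^ K := one_le_pow₀ (by norm_num)
        nlinarith
      have h8 : ((K : ℝ) * 49 ^ K) ^ (5 / 6 : ℝ) ≤ ((K : ℝ) * 49 ^ K) ^ (1 : ℝ) :=
        Real.rpow_le_rpow_of_exponent_le h7 (by norm_num)
      rw [Real.rpow_one] at h8
      exact h8.trans (nat_mul_pow K)
    have h7 : W ^ (11 / 6 : ℝ) = W ^ (5 / 6 : ℝ) * W := by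
      conv_rhs => rw [← Real.rpow_one W]
      rw [← Real.rpow_mul hW0.le, ← Real.rpow_add hW0]
      norm_num
    rw [h7]
    have h8 := mul_le_mul_of_nonneg_left h6
      (by positivity : 0 ≤ Real.sqrt C * (64 * C) ^ (5 / 6 : ℝ) * (W ^ (5 / 6 : ℝ) * W))
    refine le_trans (le_of_eq ?_) (h8.trans (le_of_eq ?_))
    · ring
    · ring
  have h4 : ((2 / (K : ℝ) ^ 2) ^ β) ^ 2 ≤ 2 * (K : ℝ) ^ (-(2 * (2 * β))) := by
    have h5 : ((2 / (K : ℝ) ^ 2) ^ β) ^ 2 = (2 / (K : ℝ) ^ 2) ^ (2 * β) := by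
      rw [← Real.rpow_natCast, ← Real.rpow_mul (by positivity)]
      congr 1
      push_cast
      ring
    rw [h5, Real.div_rpow (by norm_num) (by positivity), Real.rpow_neg hK0.le, ← div_eq_mul_inv]
    have h6 : ((K : ℝ) ^ 2) ^ (2 * β) = (K : ℝ) ^ (2 * (2 * β)) := by
      rw [← Real.rpow_natCast, ← Real.rpow_mul hK0.le]
      norm_num
    rw [h6]
    refine div_le_div_of_nonneg_right ?_ (by positivity)
    have h7 : (2 : ℝ) ^ (2 * β) ≤ (2 : ℝ) ^ (1 : ℝ) :=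
      Real.rpow_le_rpow_of_exponent_le (by norm_num) (by linarith)
    rwa [Real.rpow_one] at h7
  have h5 : 64 * (W * (2 / (K : ℝ) ^ 2) ^ β) ^ 2 * C ≤
      64 * 2 * C * (W ^ 2 * (K : ℝ) ^ (-(2 * (2 * β)))) := by
    rw [mul_pow]
    have h6 := mul_le_mul_of_nonneg_left h4 (by positivity : 0 ≤ 64 * C * W ^ 2)
    refine le_trans (le_of_eq ?_) (h6.trans (le_of_eq ?_))
    · ring
    · ring
  have h6 : ((AN A N).card : ℝ) ^ 2 ≤ 16 * 64 * 2 * C * (W ^ 2 * (K : ℝ) ^ (-(2 * (2 * β)))) +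
      C2 * (W ^ (11 / 6 : ℝ) * 100 ^ K) := by
    rw [hC2]
    linarith
  refine h6.trans ?_
  have h7 : 0 ≤ W ^ 2 * (K : ℝ) ^ (-(2 * (2 * β))) := by positivity
  have h8 : 0 ≤ W ^ (11 / 6 : ℝ) * 100 ^ K := by positivity
  have h9 := mul_nonneg hC20.le h7
  have h10 : 0 ≤ 16 * 64 * 2 * C * (W ^ (11 / 6 : ℝ) * 100 ^ K) := by positivity
  rw [add_mul, mul_add, mul_add]
  linarith

/-! ### Good values of `N` -/

theorem card_AN (A : Set ℕ) (n : ℕ) : ((AN A n).card : ℝ) = ∑ i ∈ range (n + 1), ind A i := by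
  classical
  rw [AN, Finset.card_filter]
  push_cast
  refine Finset.sum_congr rfl fun i _ => ?_
  unfold ind
  by_cases h : i ∈ A
  · rw [if_pos h]
  · rw [if_neg h]

theorem AN_mono (A : Set ℕ) {m n : ℕ} (h : m ≤ n) : (AN A m).card ≤ (AN A n).card := by
  refine Finset.card_le_card fun a ha => ?_
  rw [mem_AN] at ha ⊢
  exact ⟨ha.1.trans h, ha.2⟩

theorem AN_le (A : Set ℕ) (n : ℕ) : (AN A n).card ≤ n + 1 := by
  classical
  rw [AN]
  exact (Finset.card_filter_le _ _).trans (by rw [card_range])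

theorem gen_abel (A : Set ℕ) {y : ℝ} (h0 : 0 ≤ y) (h1 : y < 1) :
    HasSum (fun n => ((AN A n).card : ℝ) * y ^ n) (gen A y * (1 - y)⁻¹) := by
  have hs := summable_ind A h0 h1
  have hg := summable_geometric_of_lt_one h0 h1
  have hs' : Summable fun n => ‖ind A n * y ^ n‖ := by
    refine hs.congr fun n => ?_
    rw [Real.norm_of_nonneg (mul_nonneg (ind_nonneg A n) (pow_nonneg h0 n))]
  have hg' : Summable fun n : ℕ => ‖y ^ n‖ := by
    refine hg.congr fun n => ?_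
    rw [Real.norm_of_nonneg (pow_nonneg h0 n)]
  have h2 := summable_norm_sum_mul_range_of_summable_norm hs' hg'
  have h3 := tsum_mul_tsum_eq_tsum_sum_range_of_summable_norm hs' hg'
  have h4 : ∀ n, ∑ i ∈ range (n + 1), ind A i * y ^ i * y ^ (n - i) =
      ((AN A n).card : ℝ) * y ^ n := by
    intro n
    rw [card_AN, Finset.sum_mul]
    refine Finset.sum_congr rfl fun i hi => ?_
    rw [mem_range] at hi
    rw [mul_assoc, ← pow_add]
    congr 2
    omega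
  have h5 : gen A y * (1 - y)⁻¹ = ∑' n, ((AN A n).card : ℝ) * y ^ n := by
    rw [gen, ← tsum_geometric_of_lt_one h0 h1, h3]
    exact tsum_congr h4
  rw [h5]
  refine Summable.hasSum ?_
  refine h2.of_norm.congr fun n => ?_
  exact h4 n

theorem gen_le_three {A : Set ℕ} {N : ℕ} (hN : 1 ≤ N)
    (hmax : ∀ m ≥ N, (AN A m).card * N ^ 2 ≤ (AN A N).card * m ^ 2) :
    gen A (1 - 1 / (N : ℝ)) ≤ 3 * (AN A N).card := by
  have hN0 : (0 : ℝ) < N := by exact_mod_cast hN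
  have hN1 : (1 : ℝ) ≤ N := by exact_mod_cast hN
  obtain ⟨y, hy⟩ : ∃ y : ℝ, y = 1 - 1 / (N : ℝ) := ⟨_, rfl⟩
  have h1y : 1 - y = 1 / N := by rw [hy]; ring
  have hy0 : 0 ≤ y := by
    rw [hy, sub_nonneg, div_le_one hN0]
    exact hN1
  have hy1 : y < 1 := by
    have : (0 : ℝ) < 1 / N := by positivity
    linarith
  rw [← hy]
  obtain ⟨a, ha⟩ : ∃ a : ℝ, a = (AN A N).card := ⟨_, rfl⟩
  have ha0 : 0 ≤ a := by rw [ha]; positivity
  rw [← ha]
  have hyn : ‖y‖ < 1 := by rw [Real.norm_of_nonneg hy0]; exact hy1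
  have h2 := gen_abel A hy0 hy1
  have h3 : HasSum (fun n : ℕ => a * y ^ n + a / N ^ 2 * 2 * (((n + 2).choose 2 : ℝ) * y ^ n))
      (a * (1 - y)⁻¹ + a / N ^ 2 * 2 * (1 / (1 - y) ^ (2 + 1))) := by
    refine HasSum.add ?_ ?_
    · exact (hasSum_geometric_of_lt_one hy0 hy1).mul_left a
    · exact (hasSum_choose_mul_geometric_of_norm_lt_one 2 hyn).mul_left _
  have h4 : ∀ n : ℕ, ((AN A n).card : ℝ) * y ^ n ≤
      a * y ^ n + a / N ^ 2 * 2 * (((n + 2).choose 2 : ℝ) * y ^ n) := by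
    intro n
    have hyn' : 0 ≤ y ^ n := pow_nonneg hy0 n
    rw [← mul_assoc, ← add_mul]
    refine mul_le_mul_of_nonneg_right ?_ hyn'
    rcases le_total n N with h | h
    · have h5 : ((AN A n).card : ℝ) ≤ a := by
        rw [ha]
        exact_mod_cast AN_mono A h
      have h6 : 0 ≤ a / N ^ 2 * 2 * ((n + 2).choose 2 : ℝ) := by positivity
      linarith
    · have h5 : ((AN A n).card : ℝ) * N ^ 2 ≤ a * n ^ 2 := by
        rw [ha]
        exact_mod_cast hmax n h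
      have h6 : (n : ℝ) ^ 2 ≤ 2 * ((n + 2).choose 2 : ℝ) := by
        rw [Nat.cast_choose_two]
        push_cast
        nlinarith [(Nat.cast_nonneg n : (0 : ℝ) ≤ n)]
      have h7 : ((AN A n).card : ℝ) ≤ a * n ^ 2 / N ^ 2 := by
        rw [le_div_iff₀ (by positivity)]
        exact h5
      have h8 : a * (n : ℝ) ^ 2 / N ^ 2 ≤ a / N ^ 2 * 2 * ((n + 2).choose 2 : ℝ) := by
        have h9 := mul_le_mul_of_nonneg_left h6 (by positivity : 0 ≤ a / (N : ℝ) ^ 2)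
        refine le_trans (le_of_eq ?_) (h9.trans (le_of_eq ?_))
        · ring
        · ring
      linarith
  have h5 := hasSum_le h4 h2 h3
  rw [h1y] at h5
  have h6 : a * (1 / (N : ℝ))⁻¹ + a / N ^ 2 * 2 * (1 / (1 / (N : ℝ)) ^ (2 + 1)) = 3 * a * N := by
    have hNne : (N : ℝ) ≠ 0 := hN0.ne'
    rw [one_div, inv_inv, inv_pow, one_div, inv_inv]
    field_simp
    ring
  rw [h6] at h5
  have h7 : gen A y * (1 / (N : ℝ))⁻¹ = gen A y * N := by
    rw [one_div, inv_inv]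
  rw [h7] at h5
  exact le_of_mul_le_mul_right h5 hN0

theorem exists_good {A : Set ℕ} (hA : A.Infinite) (N₀ : ℕ) :
    ∃ N ≥ N₀, 1 ≤ (AN A N).card ∧
      ∀ m ≥ N, (AN A m).card * N ^ 2 ≤ (AN A N).card * m ^ 2 := by
  obtain ⟨b, hb, hbN⟩ := hA.exists_gt (N₀ + 1)
  have hb1 : 1 ≤ (AN A b).card := Finset.card_pos.2 ⟨b, mem_AN.2 ⟨le_rfl, hb⟩⟩
  obtain ⟨N, hN, hmax⟩ := Finset.exists_max_image (Finset.Icc (N₀ + 1) (4 * b ^ 2))
    (fun m => ((AN A m).card : ℝ) / m ^ 2) ⟨b, by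
      rw [Finset.mem_Icc]
      constructor
      · omega
      · nlinarith⟩
  rw [Finset.mem_Icc] at hN
  have hbI : b ∈ Finset.Icc (N₀ + 1) (4 * b ^ 2) := by
    rw [Finset.mem_Icc]
    constructor
    · omega
    · nlinarith
  have hN0 : (0 : ℝ) < N := by
    have : 0 < N := by omega
    exact_mod_cast this
  have hb0 : (0 : ℝ) < b := by
    have : 0 < b := by omega
    exact_mod_cast this
  have hgb : (1 : ℝ) / b ^ 2 ≤ ((AN A N).card : ℝ) / N ^ 2 := by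
    refine le_trans ?_ (hmax b hbI)
    refine div_le_div_of_nonneg_right ?_ (by positivity)
    exact_mod_cast hb1
  have hall : ∀ m ≥ N, ((AN A m).card : ℝ) / m ^ 2 ≤ ((AN A N).card : ℝ) / N ^ 2 := by
    intro m hm
    rcases le_or_gt m (4 * b ^ 2) with h | h
    · exact hmax m (by rw [Finset.mem_Icc]; omega)
    · refine le_trans ?_ hgb
      have hm0 : (0 : ℝ) < m := by
        have : 0 < m := by omega
        exact_mod_cast this
      rw [div_le_div_iff₀ (by positivity) (by positivity)]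
      have h2 : ((AN A m).card : ℝ) ≤ m + 1 := by exact_mod_cast AN_le A m
      have h3 : (4 : ℝ) * b ^ 2 ≤ m := by exact_mod_cast h.le
      have h4 : (1 : ℝ) ≤ m := by
        have : 1 ≤ m := by omega
        exact_mod_cast this
      have h5 := mul_le_mul_of_nonneg_right h2 (by positivity : (0 : ℝ) ≤ b ^ 2)
      nlinarith
  refine ⟨N, by omega, ?_, fun m hm => ?_⟩
  · have h2 : (0 : ℝ) < ((AN A N).card : ℝ) / N ^ 2 := lt_of_lt_of_le (by positivity) hgb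
    have h3 : (0 : ℝ) < ((AN A N).card : ℝ) := by
      by_contra h
      have h4 : ((AN A N).card : ℝ) = 0 := le_antisymm (not_lt.1 h) (Nat.cast_nonneg _)
      rw [h4, zero_div] at h2
      exact lt_irrefl _ h2
    exact_mod_cast h3
  · have h2 := hall m hm
    have hm0 : (0 : ℝ) < m := by
      have : 0 < m := by omega
      exact_mod_cast this
    rw [div_le_div_iff₀ (by positivity) (by positivity)] at h2
    exact_mod_cast h2

/-! ### The sum of the increments -/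

theorem tendsto_R1 {A : Set ℕ} (hA : A.Infinite) {k : ℕ} (hk : 4 ≤ k)
    (hmono : ∃ n₀, ∀ n ≥ n₀, R1 A k n ≤ R1 A k (n + 1)) (M : ℝ) :
    ∃ n₂, ∀ n ≥ n₂, M ≤ (R1 A k n : ℝ) := by
  obtain ⟨c, hc, h⟩ := frequently_inc_ge hk
  have h1 := h A hA hmono
  obtain ⟨n₀, hm⟩ := hmono
  obtain ⟨n, hn, hn1⟩ := (frequently_atTop.1 h1) (max n₀ (Nat.ceil (M / c)))
  refine ⟨n, fun m hmn => ?_⟩
  have h2 : M ≤ c * n := by
    have h3 : M / c ≤ n := (Nat.le_ceil _).trans (by exact_mod_cast (le_max_right _ _).trans hn)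
    rw [div_le_iff₀ hc] at h3
    linarith
  have h3 : (R1 A k n : ℝ) ≤ R1 A k m := by
    exact_mod_cast mono_of hm ((le_max_left _ _).trans hn) hmn
  have h4 : (0 : ℝ) ≤ R1 A k (n - 1) := Nat.cast_nonneg _
  linarith

theorem abs_inc_le {A : Set ℕ} (hA : A.Infinite) {k : ℕ} (hk : 4 ≤ k)
    (hmono : ∃ n₀, ∀ n ≥ n₀, R1 A k n ≤ R1 A k (n + 1)) :
    ∃ N₁ : ℕ, ∀ N ≥ N₁, ∑' n, |inc A k n| * (1 - 1 / (N : ℝ)) ^ n ≤
      2 * ((1 / N) * gen A (1 - 1 / (N : ℝ)) ^ k) := by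
  obtain ⟨n₀, hm⟩ := hmono
  obtain ⟨E, hE⟩ : ∃ E : ℝ, E = ∑ n ∈ range (n₀ + 1), 2 * |inc A k n| := ⟨_, rfl⟩
  have hE0 : 0 ≤ E := by rw [hE]; positivity
  obtain ⟨n₂, hn₂⟩ := tendsto_R1 hA hk ⟨n₀, hm⟩ (2 * E)
  refine ⟨2 * n₂ + 1, fun N hN => ?_⟩
  have hN0 : (0 : ℝ) < N := by
    have : 0 < N := by omega
    exact_mod_cast this
  have hN1 : (1 : ℝ) ≤ N := by
    have : 1 ≤ N := by omega
    exact_mod_cast this
  obtain ⟨y, hy⟩ : ∃ y : ℝ, y = 1 - 1 / (N : ℝ) := ⟨_, rfl⟩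
  have h1y : 1 - y = 1 / N := by rw [hy]; ring
  have hy0 : 0 ≤ y := by
    rw [hy, sub_nonneg, div_le_one hN0]
    exact hN1
  have hy1 : y < 1 := by
    have : (0 : ℝ) < 1 / N := by positivity
    linarith
  rw [← hy]
  have h2 := gen_pow_ge A k hn₂ hy0 hy1
  have h3 : (1 : ℝ) / 2 ≤ y ^ n₂ := by
    have h4 : (1 : ℝ) + n₂ * (-(1 / N)) ≤ (1 + -(1 / N)) ^ n₂ := by
      refine one_add_mul_le_pow ?_ n₂
      have : (1 : ℝ) / N ≤ 1 := by rw [div_le_one hN0]; exact hN1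
      linarith
    have h5 : (1 : ℝ) + -(1 / N) = y := by rw [hy]; ring
    rw [h5] at h4
    have h6 : (n₂ : ℝ) * (1 / N) ≤ 1 / 2 := by
      rw [mul_one_div, div_le_iff₀ hN0]
      have : ((2 * n₂ + 1 : ℕ) : ℝ) ≤ N := by exact_mod_cast hN
      push_cast at this
      linarith
    linarith
  have h4 : E ≤ (1 - y) * gen A y ^ k := by
    refine le_trans ?_ h2
    have := mul_le_mul_of_nonneg_left h3 (by linarith : 0 ≤ 2 * E)
    linarith
  have h5 : ∑' n, |inc A k n| * y ^ n ≤ (1 - y) * gen A y ^ k + E := by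
    rw [← tsum_inc A k hy0 hy1]
    have hs := summable_inc A k hy0 hy1
    have hb : ∀ n ∉ range (n₀ + 1), (if n < n₀ + 1 then 2 * |inc A k n| else 0 : ℝ) = 0 := by
      intro n hn
      rw [mem_range] at hn
      rw [if_neg hn]
    have hbs : Summable fun n => (if n < n₀ + 1 then 2 * |inc A k n| else 0 : ℝ) :=
      summable_of_ne_finset_zero hb
    have hE2 : E = ∑' n, (if n < n₀ + 1 then 2 * |inc A k n| else 0 : ℝ) := by
      rw [tsum_eq_sum hb, hE]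
      refine Finset.sum_congr rfl fun n hn => ?_
      rw [mem_range] at hn
      rw [if_pos hn]
    rw [hE2, ← hs.tsum_add hbs]
    have hle : ∀ n, |inc A k n| * y ^ n ≤ inc A k n * y ^ n +
        (if n < n₀ + 1 then 2 * |inc A k n| else 0 : ℝ) := by
      intro n
      have hyn : 0 ≤ y ^ n := pow_nonneg hy0 n
      have hyn1 : y ^ n ≤ 1 := pow_le_one₀ hy0 hy1.le
      by_cases hn : n < n₀ + 1
      · rw [if_pos hn]
        have h6 : (|inc A k n| - inc A k n) * y ^ n ≤ (|inc A k n| - inc A k n) * 1 :=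
          mul_le_mul_of_nonneg_left hyn1 (by linarith [le_abs_self (inc A k n)])
        have h7 := neg_abs_le (inc A k n)
        linarith
      · rw [if_neg hn, add_zero, abs_of_nonneg (inc_nonneg hm (by omega))]
    refine Summable.tsum_le_tsum hle ?_ (hs.add hbs)
    exact Summable.of_nonneg_of_le (fun n => by positivity) hle (hs.add hbs)
  rw [← h1y]
  linarith

/-! ### Asymptotics -/

theorem asym {γ C C₁ : ℝ} (hγ : 0 < γ) (hC : 0 < C) (hC₁ : 0 < C₁) :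
    ∃ c > 0, ∀ᶠ x : ℝ in atTop, ∀ a : ℝ, 1 ≤ a → a ≤ c * (x * Real.log x) ^ γ →
      ∃ K : ℕ, 1 ≤ K ∧ C * ((C₁ * (a ^ 2 * x ^ (-γ))) ^ 2 * (K : ℝ) ^ (-(2 * γ)) +
        (C₁ * (a ^ 2 * x ^ (-γ))) ^ (11 / 6 : ℝ) * 100 ^ K) < a ^ 2 := by
  have hl100 : 0 < Real.log 100 := Real.log_pos (by norm_num)
  obtain ⟨η, hη⟩ : ∃ η : ℝ, η = γ / (12 * Real.log 100) := ⟨_, rfl⟩
  have hη0 : 0 < η := by rw [hη]; positivity
  obtain ⟨D, hD⟩ : ∃ D : ℝ, D = C * C₁ ^ 2 * ((2 / η) ^ γ) ^ 2 := ⟨_, rfl⟩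
  have hD0 : 0 < D := by rw [hD]; positivity
  obtain ⟨c, hc⟩ : ∃ c : ℝ, c = min 1 (Real.sqrt (1 / (4 * D))) := ⟨_, rfl⟩
  have hc0 : 0 < c := by
    rw [hc]
    exact lt_min one_pos (Real.sqrt_pos.2 (by positivity))
  have hc1 : c ≤ 1 := by rw [hc]; exact min_le_left _ _
  have hc2 : c ^ 2 * D ≤ 1 / 4 := by
    have h1 : c ≤ Real.sqrt (1 / (4 * D)) := by rw [hc]; exact min_le_right _ _
    have h2 := pow_le_pow_left₀ hc0.le h1 2
    rw [Real.sq_sqrt (by positivity)] at h2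
    have h3 := mul_le_mul_of_nonneg_right h2 hD0.le
    refine h3.trans (le_of_eq ?_)
    field_simp
  obtain ⟨ε, hε⟩ : ∃ ε : ℝ, ε = 1 / (4 * (C * C₁ ^ (11 / 6 : ℝ))) := ⟨_, rfl⟩
  have hε0 : 0 < ε := by rw [hε]; positivity
  have hlit := (isLittleO_log_rpow_rpow_atTop (5 * γ / 3) (by positivity : 0 < γ / 12)).bound hε0
  have hlogt : ∀ᶠ x : ℝ in atTop, 1 ≤ η * Real.log x := by
    have h1 := Real.tendsto_log_atTop.eventually_ge_atTop (1 / η)
    filter_upwards [h1] with x hx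
    rw [div_le_iff₀ hη0] at hx
    linarith
  refine ⟨c, hc0, ?_⟩
  filter_upwards [hlit, hlogt, eventually_gt_atTop 1] with x hx1 hx2 hx3 a ha1 hac
  have hx0 : 0 < x := by linarith
  have hL0 : 0 < Real.log x := Real.log_pos hx3
  obtain ⟨L, hL⟩ : ∃ L : ℝ, L = Real.log x := ⟨_, rfl⟩
  rw [← hL] at hx1 hx2 hac hL0
  have ha0 : 0 < a := by linarith
  have hK1 : 1 ≤ Nat.floor (η * L) := Nat.le_floor (by exact_mod_cast hx2)
  obtain ⟨K, hK⟩ : ∃ K : ℕ, K = Nat.floor (η * L) := ⟨_, rfl⟩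
  rw [← hK] at hK1
  refine ⟨K, hK1, ?_⟩
  have hKr1 : (1 : ℝ) ≤ K := by exact_mod_cast hK1
  have hK0 : (0 : ℝ) < K := by linarith
  have hKle : (K : ℝ) ≤ η * L := by
    rw [hK]
    exact Nat.floor_le (by positivity)
  have hKge : η * L / 2 ≤ K := by
    have h1 := Nat.lt_floor_add_one (η * L)
    rw [← hK] at h1
    linarith
  -- first term
  have h1 : C * ((C₁ * (a ^ 2 * x ^ (-γ))) ^ 2 * (K : ℝ) ^ (-(2 * γ))) ≤ a ^ 2 / 4 := by
    have h2 : a * x ^ (-γ) * (K : ℝ) ^ (-γ) ≤ c * (2 / η) ^ γ := by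
      have h3 : (K : ℝ) ^ (-γ) ≤ (η * L / 2) ^ (-γ) :=
        Real.rpow_le_rpow_of_nonpos (by positivity) hKge (by linarith)
      have h4 : a * x ^ (-γ) * (K : ℝ) ^ (-γ) ≤
          (c * (x * L) ^ γ) * x ^ (-γ) * (η * L / 2) ^ (-γ) := by
        refine mul_le_mul ?_ h3 (by positivity) (by positivity)
        exact mul_le_mul_of_nonneg_right hac (by positivity)
      refine h4.trans (le_of_eq ?_)
      have h5 : (η * L / 2) ^ (-γ) = L ^ (-γ) * (2 / η) ^ γ := by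
        have h6 : η * L / 2 = L * (2 / η)⁻¹ := by
          rw [inv_div]
          ring
        rw [h6, Real.mul_rpow hL0.le (by positivity), Real.inv_rpow (by positivity),
          Real.rpow_neg (by positivity : (0 : ℝ) ≤ 2 / η), inv_inv]
      rw [h5, Real.mul_rpow hx0.le hL0.le, Real.rpow_neg hx0.le, Real.rpow_neg hL0.le]
      have e1 := (Real.rpow_pos_of_pos hx0 γ).ne'
      have e2 := (Real.rpow_pos_of_pos hL0 γ).ne'
      field_simp
    have h3 : (K : ℝ) ^ (-(2 * γ)) = ((K : ℝ) ^ (-γ)) ^ 2 := by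
      rw [← Real.rpow_natCast, ← Real.rpow_mul hK0.le]
      congr 1
      push_cast
      ring
    have h4 : 0 ≤ a * x ^ (-γ) * (K : ℝ) ^ (-γ) := by positivity
    have h5 := pow_le_pow_left₀ h4 h2 2
    have h6 := mul_le_mul_of_nonneg_left h5 (by positivity : 0 ≤ C * C₁ ^ 2 * a ^ 2)
    rw [h3]
    refine le_trans (le_of_eq ?_) (h6.trans ?_)
    · ring
    · have h7 : C * C₁ ^ 2 * a ^ 2 * (c * (2 / η) ^ γ) ^ 2 = a ^ 2 * (c ^ 2 * D) := by
        rw [hD]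
        ring
      rw [h7]
      have h8 := mul_le_mul_of_nonneg_left hc2 (sq_nonneg a)
      linarith
  -- second term
  have h2 : C * ((C₁ * (a ^ 2 * x ^ (-γ))) ^ (11 / 6 : ℝ) * 100 ^ K) ≤ a ^ 2 / 4 := by
    have h3 : (100 : ℝ) ^ K ≤ x ^ (γ / 12) := by
      have h4 : (100 : ℝ) ^ K = Real.exp (K * Real.log 100) := by
        rw [← Real.rpow_natCast, Real.rpow_def_of_pos (by norm_num)]
        congr 1
        ring
      rw [h4, Real.rpow_def_of_pos hx0, ← hL]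
      refine Real.exp_le_exp.2 ?_
      have h5 := mul_le_mul_of_nonneg_right hKle hl100.le
      refine h5.trans (le_of_eq ?_)
      rw [hη]
      field_simp
    have h4 : (C₁ * (a ^ 2 * x ^ (-γ))) ^ (11 / 6 : ℝ) =
        C₁ ^ (11 / 6 : ℝ) * (a ^ 2 * a ^ (5 / 3 : ℝ) * x ^ (-(11 * γ / 6))) := by
      rw [Real.mul_rpow hC₁.le (by positivity), Real.mul_rpow (by positivity) (by positivity),
        ← Real.rpow_mul hx0.le]
      have h5 : (a ^ 2) ^ (11 / 6 : ℝ) = a ^ 2 * a ^ (5 / 3 : ℝ) := by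
        rw [← Real.rpow_natCast, ← Real.rpow_mul ha0.le, ← Real.rpow_add ha0]
        norm_num
      rw [h5]
      congr 3
      ring
    have h5 : a ^ (5 / 3 : ℝ) ≤ x ^ (5 * γ / 3) * L ^ (5 * γ / 3) := by
      have h6 : a ≤ (x * L) ^ γ := by
        refine hac.trans ?_
        exact mul_le_of_le_one_left (by positivity) hc1
      have h7 := Real.rpow_le_rpow ha0.le h6 (by norm_num : (0 : ℝ) ≤ 5 / 3)
      refine h7.trans (le_of_eq ?_)
      rw [← Real.rpow_mul (by positivity), Real.mul_rpow hx0.le hL0.le]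
      congr 2 <;> ring
    have h6 : L ^ (5 * γ / 3) ≤ ε * x ^ (γ / 12) := by
      rw [Real.norm_of_nonneg (by positivity), Real.norm_of_nonneg (by positivity)] at hx1
      exact hx1
    rw [h4]
    have h7 : a ^ 2 * a ^ (5 / 3 : ℝ) * x ^ (-(11 * γ / 6)) * 100 ^ K ≤
        a ^ 2 * (x ^ (5 * γ / 3) * (ε * x ^ (γ / 12))) * x ^ (-(11 * γ / 6)) * x ^ (γ / 12) := by
      refine mul_le_mul ?_ h3 (by positivity) (by positivity)
      refine mul_le_mul_of_nonneg_right ?_ (by positivity)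
      refine mul_le_mul_of_nonneg_left ?_ (by positivity)
      exact h5.trans (mul_le_mul_of_nonneg_left h6 (by positivity))
    have h8 : a ^ 2 * (x ^ (5 * γ / 3) * (ε * x ^ (γ / 12))) * x ^ (-(11 * γ / 6)) *
        x ^ (γ / 12) = a ^ 2 * ε := by
      have h9 : x ^ (5 * γ / 3) * x ^ (γ / 12) * x ^ (-(11 * γ / 6)) * x ^ (γ / 12) = 1 := by
        rw [← Real.rpow_add hx0, ← Real.rpow_add hx0, ← Real.rpow_add hx0]
        have : 5 * γ / 3 + γ / 12 + -(11 * γ / 6) + γ / 12 = 0 := by ring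
        rw [this, Real.rpow_zero]
      calc a ^ 2 * (x ^ (5 * γ / 3) * (ε * x ^ (γ / 12))) * x ^ (-(11 * γ / 6)) * x ^ (γ / 12)
          = a ^ 2 * ε * (x ^ (5 * γ / 3) * x ^ (γ / 12) * x ^ (-(11 * γ / 6)) * x ^ (γ / 12)) := by
            ring
        _ = a ^ 2 * ε := by rw [h9, mul_one]
    rw [h8] at h7
    have h9 := mul_le_mul_of_nonneg_left h7 (by positivity : 0 ≤ C * C₁ ^ (11 / 6 : ℝ))
    refine le_trans (le_of_eq ?_) (h9.trans (le_of_eq ?_))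
    · ring
    · rw [hε]
      have := (Real.rpow_pos_of_pos hC₁ (11 / 6 : ℝ)).ne'
      field_simp
  rw [mul_add]
  have h3 : 0 < a ^ 2 := by positivity
  linarith

/-- **The lower bound.** -/
theorem lower_bound {k : ℕ} (hk : 5 ≤ k) : ∃ c > 0, ∀ A : Set ℕ, A.Infinite →
    (∃ n₀, ∀ n ≥ n₀, R1 A k n ≤ R1 A k (n + 1)) →
      ∃ᶠ n : ℕ in atTop, c * ((n : ℝ) * Real.log n) ^ (2 / (k : ℝ)) ≤ ((AN A n).card : ℝ) := by
  have hk1 : (5 : ℝ) ≤ k := by exact_mod_cast hk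
  have hk0 : (0 : ℝ) < k := by linarith
  obtain ⟨C, hC, hmain⟩ := main_bound hk
  obtain ⟨γ, hγ⟩ : ∃ γ : ℝ, γ = 2 / (k : ℝ) := ⟨_, rfl⟩
  have hγ0 : 0 < γ := by rw [hγ]; positivity
  obtain ⟨C₁, hC₁⟩ : ∃ C₁ : ℝ, C₁ = (2 * 3 ^ k : ℝ) ^ γ := ⟨_, rfl⟩
  have hC₁0 : 0 < C₁ := by rw [hC₁]; positivity
  obtain ⟨c, hc, hasym⟩ := asym hγ0 hC hC₁0
  refine ⟨c, hc, fun A hA hmono => ?_⟩
  by_contra hcon
  rw [not_frequently] at hcon
  obtain ⟨N₁, hN₁⟩ := abs_inc_le hA (by omega : 4 ≤ k) hmono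
  have hev := (tendsto_natCast_atTop_atTop (R := ℝ)).eventually hasym
  obtain ⟨N₂, hN₂⟩ := eventually_atTop.1 (hev.and hcon)
  obtain ⟨N, hN, hN1, hmax⟩ := exists_good hA (max N₁ (max N₂ 4))
  have hNN₁ : N₁ ≤ N := (le_max_left _ _).trans hN
  have hNN₂ : N₂ ≤ N := ((le_max_left _ _).trans (le_max_right _ _)).trans hN
  have hN4 : 4 ≤ N := ((le_max_right _ _).trans (le_max_right _ _)).trans hN
  obtain ⟨h1, h2⟩ := hN₂ N hNN₂
  obtain ⟨a, ha⟩ : ∃ a : ℝ, a = ((AN A N).card : ℝ) := ⟨_, rfl⟩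
  have ha1 : 1 ≤ a := by rw [ha]; exact_mod_cast hN1
  rw [← hγ, ← ha, not_le] at h2
  obtain ⟨K, hK, hlt⟩ := h1 a ha1 h2.le
  have hN0 : (0 : ℝ) < N := by
    have : 0 < N := by omega
    exact_mod_cast this
  have hN1' : (1 : ℝ) ≤ N := by
    have : 1 ≤ N := by omega
    exact_mod_cast this
  have h3 := hN₁ N hNN₁
  have h4 := gen_le_three (by omega : 1 ≤ N) hmax
  rw [← ha] at h4
  have h0y : 0 ≤ 1 - 1 / (N : ℝ) := by
    rw [sub_nonneg, div_le_one hN0]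
    exact hN1'
  have h5 := pow_le_pow_left₀ (gen_nonneg A h0y) h4 k
  have h6 : 2 * ((1 / (N : ℝ)) * gen A (1 - 1 / (N : ℝ)) ^ k) ≤ 2 * 3 ^ k * (a ^ k / N) := by
    have h7 := mul_le_mul_of_nonneg_left h5 (by positivity : (0 : ℝ) ≤ 2 * (1 / N))
    refine le_trans (le_of_eq ?_) (h7.trans (le_of_eq ?_))
    · ring
    · rw [mul_pow]
      ring
  have hT : 0 < 2 * 3 ^ k * (a ^ k / (N : ℝ)) := by positivity
  have h7 := hmain A N K hN4 hK _ hT (h3.trans h6)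
  rw [← ha, ← hγ] at h7
  have h8 : (2 * 3 ^ k * (a ^ k / (N : ℝ))) ^ γ = C₁ * (a ^ 2 * (N : ℝ) ^ (-γ)) := by
    rw [Real.mul_rpow (by positivity) (by positivity), ← hC₁, Real.div_rpow (by positivity) hN0.le,
      Real.rpow_neg hN0.le, div_eq_mul_inv]
    congr 2
    rw [← Real.rpow_natCast a k, ← Real.rpow_mul (by linarith), hγ]
    have : (k : ℝ) * (2 / k) = 2 := by field_simp
    rw [this, ← Real.rpow_natCast]
    norm_num
  rw [h8] at h7
  exact absurd (h7.trans_lt hlt) (lt_irrefl _)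

end Pool.Agent.H65.CP
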