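import Mathlib

/-!
# Fourier coefficients on an interval of length `2 π`

`fc g h` is the Fourier coefficient of `g` at `h`. Multiplication by an absolutely convergent
trigonometric series; the identity of Parseval; the class `Lam` of functions whose Fourier
coefficients have sum at most `l * |F| ^ γ` over each finite set `F`.
-/

open Finset MeasureTheory

namespace Pool.Agent.H65.CP

/-- `exp (i n θ)`. -/
noncomputable def ex (n : ℤ) (θ : ℝ) : ℂ := Complex.exp ((n : ℂ) * (θ * Complex.I))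

theorem norm_ex (n : ℤ) (θ : ℝ) : ‖ex n θ‖ = 1 := by
  have : (n : ℂ) * (θ * Complex.I) = (((n : ℝ) * θ : ℝ) : ℂ) * Complex.I := by
    push_cast
    ring
  rw [ex, this, Complex.norm_exp_ofReal_mul_I]

theorem ex_add (m n : ℤ) (θ : ℝ) : ex (m + n) θ = ex m θ * ex n θ := by
  rw [ex, ex, ex, ← Complex.exp_add]
  congr 1
  push_cast
  ring

theorem ex_zero (θ : ℝ) : ex 0 θ = 1 := by
  simp [ex]

theorem continuous_ex (n : ℤ) : Continuous (ex n) := by
  unfold ex
  fun_prop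

theorem integral_ex (n : ℤ) : ∫ θ in (0 : ℝ)..(2 * Real.pi), ex n θ =
    if n = 0 then ((2 * Real.pi : ℝ) : ℂ) else 0 := by
  split_ifs with h
  · subst h
    simp [ex]
  · have hk : (n : ℂ) ≠ 0 := by
      rw [Int.cast_ne_zero]
      exact h
    have hc : (n : ℂ) * Complex.I ≠ 0 := mul_ne_zero hk Complex.I_ne_zero
    have h1 : ∀ θ : ℝ, ex n θ = Complex.exp (((n : ℂ) * Complex.I) * θ) := by
      intro θ
      rw [ex]
      congr 1
      ring
    simp_rw [h1]
    rw [integral_exp_mul_complex hc]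
    have h2 : ((n : ℂ) * Complex.I) * ((2 * Real.pi : ℝ) : ℂ) =
        (n : ℂ) * (2 * Real.pi * Complex.I) := by
      push_cast
      ring
    rw [h2, Complex.exp_int_mul_two_pi_mul_I]
    simp

/-- The Fourier coefficient. -/
noncomputable def fc (g : ℝ → ℂ) (h : ℤ) : ℂ :=
  ((2 * Real.pi : ℝ) : ℂ)⁻¹ * ∫ θ in (0 : ℝ)..(2 * Real.pi), ex (-h) θ * g θ

theorem fc_congr {g g' : ℝ → ℂ} (hg : ∀ θ, g θ = g' θ) (h : ℤ) : fc g h = fc g' h := by
  have : g = g' := funext hg
  rw [this]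

theorem fc_add {g g' : ℝ → ℂ} (hg : Continuous g) (hg' : Continuous g') (h : ℤ) :
    fc (fun θ => g θ + g' θ) h = fc g h + fc g' h := by
  unfold fc
  rw [← mul_add, ← intervalIntegral.integral_add]
  · congr 2
    funext θ
    ring
  · exact ((continuous_ex _).mul hg).intervalIntegrable _ _
  · exact ((continuous_ex _).mul hg').intervalIntegrable _ _

theorem fc_const_mul (c : ℂ) (g : ℝ → ℂ) (h : ℤ) : fc (fun θ => c * g θ) h = c * fc g h := by
  unfold fc
  have h1 : ∫ θ in (0 : ℝ)..(2 * Real.pi), ex (-h) θ * (c * g θ) =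
      c * ∫ θ in (0 : ℝ)..(2 * Real.pi), ex (-h) θ * g θ := by
    rw [← intervalIntegral.integral_const_mul]
    congr 1
    funext θ
    ring
  rw [h1]
  ring

theorem fc_one (h : ℤ) : fc (fun _ => 1) h = if h = 0 then 1 else 0 := by
  unfold fc
  simp only [mul_one]
  rw [integral_ex]
  have hpi : ((2 * Real.pi : ℝ) : ℂ) ≠ 0 := by
    rw [Complex.ofReal_ne_zero]
    exact Real.two_pi_pos.ne'
  by_cases h0 : h = 0
  · rw [if_pos (by rw [h0, neg_zero]), if_pos h0, inv_mul_cancel₀ hpi]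
  · rw [if_neg (by rwa [neg_eq_zero]), if_neg h0, mul_zero]

/-- Multiplication by an absolutely convergent trigonometric series. -/
theorem fc_series {ι : Type} [Countable ι] {w : ι → ℂ} {φ : ι → ℤ}
    (hw : Summable fun i => ‖w i‖) {s g : ℝ → ℂ} (hg : Continuous g)
    (hs : ∀ θ, HasSum (fun i => w i * ex (φ i) θ) (s θ)) (h : ℤ) :
    HasSum (fun i => w i * fc g (h - φ i)) (fc (fun θ => s θ * g θ) h) := by
  have hI := intervalIntegral.hasSum_integral_of_dominated_convergence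
    (μ := volume) (a := 0) (b := 2 * Real.pi)
    (F := fun (i : ι) (θ : ℝ) => w i * (ex (-(h - φ i)) θ * g θ))
    (f := fun θ : ℝ => ex (-h) θ * (s θ * g θ))
    (fun i θ => ‖w i‖ * ‖g θ‖)
    (fun i => Continuous.aestronglyMeasurable
      (continuous_const.mul ((continuous_ex _).mul hg)))
    (fun i => Filter.Eventually.of_forall fun θ _ => by
      rw [norm_mul, norm_mul, norm_ex, one_mul])
    (Filter.Eventually.of_forall fun θ _ => hw.mul_right _)
    (by
      have : (fun θ : ℝ => ∑' i, ‖w i‖ * ‖g θ‖) = fun θ => (∑' i, ‖w i‖) * ‖g θ‖ := by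
        funext θ
        rw [tsum_mul_right]
      rw [this]
      exact (continuous_const.mul hg.norm).intervalIntegrable _ _)
    (Filter.Eventually.of_forall fun θ _ => by
      have h1 := ((hs θ).mul_right (g θ)).mul_left (ex (-h) θ)
      have h2 : (fun i => ex (-h) θ * (w i * ex (φ i) θ * g θ)) =
          fun i => w i * (ex (-(h - φ i)) θ * g θ) := by
        funext i
        have h3 : ex (-(h - φ i)) θ = ex (-h) θ * ex (φ i) θ := by
          rw [← ex_add]
          congr 1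
          ring
        rw [h3]
        ring
      rw [h2] at h1
      exact h1)
  have h4 := hI.mul_left (((2 * Real.pi : ℝ) : ℂ)⁻¹)
  have h5 : (fun i => ((2 * Real.pi : ℝ) : ℂ)⁻¹ *
      ∫ θ in (0 : ℝ)..(2 * Real.pi), w i * (ex (-(h - φ i)) θ * g θ)) =
      fun i => w i * fc g (h - φ i) := by
    funext i
    rw [fc, intervalIntegral.integral_const_mul]
    ring
  rw [h5] at h4
  exact h4

theorem norm_fc_le {g : ℝ → ℂ} {C : ℝ} (hC : ∀ θ, ‖g θ‖ ≤ C) (h : ℤ) : ‖fc g h‖ ≤ C := by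
  unfold fc
  have hpi := Real.two_pi_pos
  rw [norm_mul, norm_inv, Complex.norm_real, Real.norm_of_nonneg hpi.le]
  have h1 : ‖∫ θ in (0 : ℝ)..(2 * Real.pi), ex (-h) θ * g θ‖ ≤ C * |2 * Real.pi - 0| := by
    refine intervalIntegral.norm_integral_le_of_norm_le_const fun θ _ => ?_
    rw [norm_mul, norm_ex, one_mul]
    exact hC θ
  rw [sub_zero, abs_of_pos hpi] at h1
  calc (2 * Real.pi)⁻¹ * ‖∫ θ in (0 : ℝ)..(2 * Real.pi), ex (-h) θ * g θ‖
      ≤ (2 * Real.pi)⁻¹ * (C * (2 * Real.pi)) :=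
        mul_le_mul_of_nonneg_left h1 (inv_nonneg.2 hpi.le)
    _ = C := by field_simp

theorem fourierCoeffOn_eq_fc (hpi : (0 : ℝ) < 2 * Real.pi) (g : ℝ → ℂ) (h : ℤ) :
    fourierCoeffOn hpi g h = fc g h := by
  rw [fourierCoeffOn_eq_integral]
  unfold fc
  rw [sub_zero, Complex.real_smul]
  congr 1
  · push_cast
    rw [one_div]
  · congr 1
    funext θ
    rw [fourier_coe_apply, smul_eq_mul]
    congr 1
    unfold ex
    congr 1
    have h2 : ((2 * Real.pi : ℝ) : ℂ) ≠ 0 := by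
      rw [Complex.ofReal_ne_zero]
      exact hpi.ne'
    push_cast at h2 ⊢
    field_simp

/-- The identity of Parseval. -/
theorem hasSum_sq_fc {g : ℝ → ℂ} (hg : Continuous g) :
    HasSum (fun h => ‖fc g h‖ ^ 2) ((2 * Real.pi)⁻¹ * ∫ θ in (0 : ℝ)..(2 * Real.pi), ‖g θ‖ ^ 2) := by
  have hpi : (0 : ℝ) < 2 * Real.pi := Real.two_pi_pos
  have hL2 : MemLp g 2 (volume.restrict (Set.Ioc 0 (2 * Real.pi))) := by
    obtain ⟨C, hC⟩ := isCompact_Icc.exists_bound_of_continuousOn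
      (s := Set.Icc 0 (2 * Real.pi)) hg.continuousOn
    refine MemLp.of_bound hg.aestronglyMeasurable C ?_
    rw [ae_restrict_iff' measurableSet_Ioc]
    exact Filter.Eventually.of_forall fun θ hθ => hC θ (Set.Ioc_subset_Icc_self hθ)
  have h1 := hasSum_sq_fourierCoeffOn hpi hL2
  rw [sub_zero, smul_eq_mul] at h1
  have h3 : (fun i => ‖fourierCoeffOn hpi g i‖ ^ 2) = fun h => ‖fc g h‖ ^ 2 := by
    funext h
    congr 2
    exact fourierCoeffOn_eq_fc hpi g h
  rw [h3] at h1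
  exact h1

theorem sum_sq_fc_le {g : ℝ → ℂ} (hg : Continuous g) (F : Finset ℤ) :
    ∑ h ∈ F, ‖fc g h‖ ^ 2 ≤ (2 * Real.pi)⁻¹ * ∫ θ in (0 : ℝ)..(2 * Real.pi), ‖g θ‖ ^ 2 :=
  sum_le_hasSum F (fun _ _ => sq_nonneg _) (hasSum_sq_fc hg)

theorem integral_sq_mono {g g' : ℝ → ℂ} (hg : Continuous g) (hg' : Continuous g') {C : ℝ}
    (h : ∀ θ, ‖g θ‖ ≤ C * ‖g' θ‖) :
    (2 * Real.pi)⁻¹ * ∫ θ in (0 : ℝ)..(2 * Real.pi), ‖g θ‖ ^ 2 ≤
      C ^ 2 * ((2 * Real.pi)⁻¹ * ∫ θ in (0 : ℝ)..(2 * Real.pi), ‖g' θ‖ ^ 2) := by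
  have hpi : (0 : ℝ) < 2 * Real.pi := Real.two_pi_pos
  rw [mul_left_comm]
  refine mul_le_mul_of_nonneg_left ?_ (inv_nonneg.2 hpi.le)
  rw [← intervalIntegral.integral_const_mul]
  refine intervalIntegral.integral_mono_on hpi.le ((hg.norm.pow 2).intervalIntegrable _ _)
    ((continuous_const.mul (hg'.norm.pow 2)).intervalIntegrable _ _) fun θ _ => ?_
  rw [← mul_pow]
  exact pow_le_pow_left₀ (norm_nonneg _) (h θ) 2

end Pool.Agent.H65.CP
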