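import Pool.Agent.H65.CP.Lam

/-!
# Approximation of `s ^ α` by Chebyshev polynomials (discrete Jackson kernel)
-/

open Finset

namespace Pool.Agent.H65.CP

theorem conj_ex (n : ℤ) (u : ℝ) : (starRingEnd ℂ) (ex n u) = ex (-n) u := by
  rw [ex, ex, ← Complex.exp_conj]
  congr 1
  simp [Complex.conj_ofReal]

theorem re_ex (n : ℤ) (u : ℝ) : (ex n u).re = Real.cos (n * u) := by
  have : (n : ℂ) * (u * Complex.I) = (((n : ℝ) * u : ℝ) : ℂ) * Complex.I := by
    push_cast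
    ring
  rw [ex, this, Complex.exp_ofReal_mul_I_re]

/-- The Dirichlet kernel. -/
noncomputable def Dk (K : ℕ) (u : ℝ) : ℂ := ∑ q : Fin K, ex ((q : ℕ) : ℤ) u

/-- Its square. -/
noncomputable def w2 (K : ℕ) (u : ℝ) : ℝ := ‖Dk K u‖ ^ 2

theorem w2_nonneg (K : ℕ) (u : ℝ) : 0 ≤ w2 K u := sq_nonneg _

/-- The frequencies of the square. -/
def n2 (K : ℕ) (a : Fin K × Fin K) : ℤ := ((a.1 : ℕ) : ℤ) - ((a.2 : ℕ) : ℤ)

/-- The frequencies of the fourth power. -/
def n4 (K : ℕ) (a : (Fin K × Fin K) × (Fin K × Fin K)) : ℤ := n2 K a.1 + n2 K a.2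

theorem w2_eq (K : ℕ) (u : ℝ) : ((w2 K u : ℝ) : ℂ) = ∑ a : Fin K × Fin K, ex (n2 K a) u := by
  rw [w2]
  push_cast
  rw [← Complex.mul_conj', Dk, map_sum, Finset.sum_mul_sum, Fintype.sum_prod_type]
  refine Finset.sum_congr rfl fun i _ => Finset.sum_congr rfl fun j _ => ?_
  rw [conj_ex, ← ex_add, n2, sub_eq_add_neg]

theorem w4_eq (K : ℕ) (u : ℝ) : ((w2 K u ^ 2 : ℝ) : ℂ) =
    ∑ a : (Fin K × Fin K) × (Fin K × Fin K), ex (n4 K a) u := by
  push_cast
  rw [w2_eq, sq, Finset.sum_mul_sum]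
  symm
  rw [Fintype.sum_prod_type]
  refine Finset.sum_congr rfl fun i _ => Finset.sum_congr rfl fun j _ => ?_
  rw [← ex_add, n4]

theorem w4_cos (K : ℕ) (u : ℝ) : w2 K u ^ 2 =
    ∑ a : (Fin K × Fin K) × (Fin K × Fin K), Real.cos (n4 K a * u) := by
  have h := congrArg Complex.re (w4_eq K u)
  rw [Complex.ofReal_re, Complex.re_sum] at h
  rw [h]
  exact Finset.sum_congr rfl fun a _ => re_ex _ _

theorem n2_lt {K : ℕ} (a : Fin K × Fin K) : |n2 K a| < K := by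
  have h1 := a.1.2
  have h2 := a.2.2
  rw [n2, abs_lt]
  omega

theorem n4_lt {K : ℕ} (a : (Fin K × Fin K) × (Fin K × Fin K)) : |n4 K a| < 2 * K := by
  have h1 := abs_lt.1 (n2_lt a.1)
  have h2 := abs_lt.1 (n2_lt a.2)
  rw [n4, abs_lt]
  omega

/-- The nodes. -/
noncomputable def nd (M : ℕ) (j : Fin M) : ℝ := 2 * Real.pi * j / M

theorem sum_ex {M : ℕ} (hM : 1 ≤ M) {n : ℤ} (hn : |n| < M) (x : ℝ) :
    ∑ j : Fin M, ex n (x - nd M j) = if n = 0 then (M : ℂ) else 0 := by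
  split_ifs with h
  · subst h
    simp [ex]
  · have hM0 : (M : ℂ) ≠ 0 := by
      rw [Nat.cast_ne_zero]
      omega
    obtain ⟨r, hr⟩ : ∃ r : ℂ, r = Complex.exp (2 * Real.pi * Complex.I * (-(n : ℂ) / M)) := ⟨_, rfl⟩
    have h1 : ∀ j : Fin M, ex n (x - nd M j) = ex n x * r ^ (j : ℕ) := by
      intro j
      rw [hr, ← Complex.exp_nat_mul, ex, ex, ← Complex.exp_add]
      congr 1
      rw [nd]
      push_cast
      field_simp
      ring
    simp only [h1]
    rw [← Finset.mul_sum, Fin.sum_univ_eq_sum_range (fun j => r ^ j) M]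
    have h2 : r ^ M = 1 := by
      rw [hr, ← Complex.exp_nat_mul]
      have h3 : (M : ℂ) * (2 * Real.pi * Complex.I * (-(n : ℂ) / M)) =
          ((-n : ℤ) : ℂ) * (2 * Real.pi * Complex.I) := by
        push_cast
        field_simp
      rw [h3, Complex.exp_int_mul_two_pi_mul_I]
    have h3 : r ≠ 1 := by
      intro h4
      rw [hr, Complex.exp_eq_one_iff] at h4
      obtain ⟨m, hm⟩ := h4
      have h5 : (-(n : ℂ) / M) = m := by
        have h6 : (2 * (Real.pi : ℂ) * Complex.I) ≠ 0 := Complex.two_pi_I_ne_zero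
        have h7 : (2 * (Real.pi : ℂ) * Complex.I) * (-(n : ℂ) / M) =
            (2 * (Real.pi : ℂ) * Complex.I) * m := by
          rw [hm]
          ring
        exact mul_left_cancel₀ h6 h7
      rw [div_eq_iff hM0] at h5
      have h6 : -n = m * M := by exact_mod_cast h5
      have h7 : (M : ℤ) ∣ n := by
        refine ⟨-m, ?_⟩
        rw [← neg_inj, h6]
        ring
      have h8 : n = 0 := Int.eq_zero_of_abs_lt_dvd h7 (by exact_mod_cast hn)
      exact h h8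
    rw [geom_sum_eq h3, h2, sub_self, zero_div, mul_zero]

theorem sum_w2 {K : ℕ} (hK : 1 ≤ K) (x : ℝ) :
    ∑ j : Fin (2 * K), w2 K (x - nd (2 * K) j) = 2 * K * K := by
  apply Complex.ofReal_injective
  push_cast
  simp only [w2_eq]
  rw [Finset.sum_comm]
  have h1 : ∀ a : Fin K × Fin K, ∑ j : Fin (2 * K), ex (n2 K a) (x - nd (2 * K) j) =
      if n2 K a = 0 then ((2 * K : ℕ) : ℂ) else 0 := by
    intro a
    refine sum_ex (by omega) ?_ x
    have := n2_lt a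
    push_cast
    omega
  simp only [h1]
  rw [Fintype.sum_prod_type]
  have h2 : ∀ i : Fin K, ∑ j : Fin K, (if n2 K (i, j) = 0 then ((2 * K : ℕ) : ℂ) else 0) =
      ((2 * K : ℕ) : ℂ) := by
    intro i
    rw [Finset.sum_eq_single i]
    · rw [if_pos]
      simp [n2]
    · intro j _ hj
      rw [if_neg]
      rw [n2, sub_eq_zero]
      intro h
      exact hj (Fin.ext (by exact_mod_cast h.symm))
    · simp
  simp only [h2]
  rw [Finset.sum_const, Finset.card_univ, Fintype.card_fin, nsmul_eq_mul]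
  push_cast
  ring

/-- The number of solutions. -/
noncomputable def En (K : ℕ) : ℝ :=
  ∑ a : (Fin K × Fin K) × (Fin K × Fin K), if n4 K a = 0 then (1 : ℝ) else 0

theorem sum_w4 {K : ℕ} (hK : 1 ≤ K) (x : ℝ) :
    ∑ j : Fin (2 * K), w2 K (x - nd (2 * K) j) ^ 2 = 2 * K * En K := by
  apply Complex.ofReal_injective
  rw [Complex.ofReal_sum]
  simp only [w4_eq]
  rw [Finset.sum_comm]
  have h1 : ∀ a, ∑ j : Fin (2 * K), ex (n4 K a) (x - nd (2 * K) j) =
      if n4 K a = 0 then ((2 * K : ℕ) : ℂ) else 0 := by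
    intro a
    refine sum_ex (by omega) ?_ x
    have := n4_lt a
    push_cast
    exact this
  simp only [h1]
  rw [En]
  push_cast
  rw [Finset.mul_sum]
  refine Finset.sum_congr rfl fun a _ => ?_
  split_ifs <;> simp

theorem w2_zero (K : ℕ) : w2 K 0 = (K : ℝ) ^ 2 := by
  rw [w2, Dk]
  simp [ex]

theorem En_ge {K : ℕ} (hK : 1 ≤ K) : (K : ℝ) ^ 3 / 2 ≤ En K := by
  have h1 := sum_w4 hK 0
  have hK0 : (0 : ℝ) < K := by exact_mod_cast hK
  have h2 : w2 K 0 ^ 2 ≤ ∑ j : Fin (2 * K), w2 K (0 - nd (2 * K) j) ^ 2 := by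
    have h3 := Finset.single_le_sum (f := fun j : Fin (2 * K) => w2 K (0 - nd (2 * K) j) ^ 2)
      (fun j _ => sq_nonneg _) (Finset.mem_univ (⟨0, by omega⟩ : Fin (2 * K)))
    have h4 : nd (2 * K) ⟨0, by omega⟩ = 0 := by simp [nd]
    rw [h4, sub_zero] at h3
    exact h3
  rw [h1, w2_zero] at h2
  rw [div_le_iff₀ (by norm_num)]
  have h3 : (K : ℝ) * (K : ℝ) ^ 3 ≤ K * (En K * 2) := by
    calc (K : ℝ) * (K : ℝ) ^ 3 = ((K : ℝ) ^ 2) ^ 2 := by ring
      _ ≤ 2 * K * En K := h2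
      _ = _ := by ring
  exact le_of_mul_le_mul_left h3 hK0

theorem sin_sq_mul_w2 (K : ℕ) (u : ℝ) : Real.sin (u / 2) ^ 2 * w2 K u ≤ 1 := by
  have h1 : ‖1 - ex 1 u‖ ^ 2 = 4 * Real.sin (u / 2) ^ 2 := by
    have h2 : ex 1 u = Complex.exp (u * Complex.I) := by
      rw [ex]
      congr 1
      push_cast
      ring
    rw [h2, Complex.exp_mul_I, ← Complex.ofReal_cos, ← Complex.ofReal_sin, Complex.sq_norm,
      Complex.normSq_apply]
    simp only [Complex.sub_re, Complex.one_re, Complex.add_re, Complex.ofReal_re, Complex.mul_re,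
      Complex.I_re, mul_zero, Complex.ofReal_im, Complex.I_im, mul_one, sub_self, add_zero,
      Complex.sub_im, Complex.one_im, Complex.add_im, Complex.mul_im, zero_add, zero_sub]
    have h3 : Real.cos u = 1 - 2 * Real.sin (u / 2) ^ 2 := by
      have := Real.cos_two_mul (u / 2)
      rw [mul_div_cancel₀ u (two_ne_zero)] at this
      rw [this, Real.cos_sq']
      ring
    have h4 := Real.sin_sq_add_cos_sq u
    nlinarith
  have h2 : (1 - ex 1 u) * Dk K u = 1 - ex K u := by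
    have h3 : ∀ q : Fin K, ex ((q : ℕ) : ℤ) u = (ex 1 u) ^ (q : ℕ) := by
      intro q
      rw [ex, ex, ← Complex.exp_nat_mul]
      congr 1
      push_cast
      ring
    have h4 : ex K u = (ex 1 u) ^ K := by
      rw [ex, ex, ← Complex.exp_nat_mul]
      congr 1
      push_cast
      ring
    rw [Dk]
    simp only [h3]
    rw [Fin.sum_univ_eq_sum_range (fun j => (ex 1 u) ^ j) K, h4]
    exact mul_neg_geom_sum _ _
  have h3 : ‖1 - ex K u‖ ≤ 2 := by
    refine (norm_sub_le _ _).trans ?_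
    rw [norm_one, norm_ex]
    norm_num
  have h4 : 4 * (Real.sin (u / 2) ^ 2 * w2 K u) = ‖1 - ex K u‖ ^ 2 := by
    rw [← h2, norm_mul, mul_pow, h1, w2]
    ring
  have h5 : ‖1 - ex K u‖ ^ 2 ≤ 2 ^ 2 := pow_le_pow_left₀ (norm_nonneg _) h3 2
  linarith

/-- `|sin (x / 2)| ^ (2 α)`. -/
noncomputable def Gf (α x : ℝ) : ℝ := |Real.sin (x / 2)| ^ (2 * α)

theorem Gf_nonneg (α x : ℝ) : 0 ≤ Gf α x := Real.rpow_nonneg (abs_nonneg _) _

theorem Gf_le_one {α : ℝ} (h0 : 0 ≤ α) (x : ℝ) : Gf α x ≤ 1 :=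
  Real.rpow_le_one (abs_nonneg _) (Real.abs_sin_le_one _) (by linarith)

theorem Gf_neg (α x : ℝ) : Gf α (-x) = Gf α x := by
  rw [Gf, Gf, neg_div, Real.sin_neg, abs_neg]

theorem abs_rpow_sub_le {a b e : ℝ} (ha : 0 ≤ a) (hb : 0 ≤ b) (h0 : 0 ≤ e) (h1 : e ≤ 1) :
    |a ^ e - b ^ e| ≤ |a - b| ^ e := by
  have key : ∀ {a b : ℝ}, 0 ≤ a → 0 ≤ b → b ≤ a → |a ^ e - b ^ e| ≤ |a - b| ^ e := by
    intro a b ha hb hab
    have h2 := Real.rpow_add_le_add_rpow hb (sub_nonneg.2 hab) h0 h1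
    rw [add_sub_cancel] at h2
    have h3 := Real.rpow_le_rpow hb hab h0
    rw [abs_of_nonneg (by linarith), abs_of_nonneg (by linarith)]
    linarith
  rcases le_total b a with h | h
  · exact key ha hb h
  · rw [abs_sub_comm, abs_sub_comm a b]
    exact key hb ha h

theorem abs_sin_sub (x y : ℝ) : abs (|Real.sin x| - |Real.sin y|) ≤ |Real.sin (x - y)| := by
  have key : ∀ x y : ℝ, |Real.sin x| - |Real.sin y| ≤ |Real.sin (x - y)| := by
    intro x y
    have h1 : Real.sin x = Real.sin y * Real.cos (x - y) + Real.cos y * Real.sin (x - y) := by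
      rw [← Real.sin_add]
      congr 1
      ring
    have h2 : |Real.sin x| ≤ |Real.sin y| * 1 + 1 * |Real.sin (x - y)| := by
      rw [h1]
      refine (abs_add_le _ _).trans ?_
      rw [abs_mul, abs_mul]
      exact add_le_add
        (mul_le_mul_of_nonneg_left (Real.abs_cos_le_one _) (abs_nonneg _))
        (mul_le_mul_of_nonneg_right (Real.abs_cos_le_one _) (abs_nonneg _))
    linarith
  rw [abs_sub_le_iff]
  refine ⟨key x y, ?_⟩
  have h := key y x
  rwa [← abs_neg (Real.sin (y - x)), ← Real.sin_neg, neg_sub] at h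

theorem Gf_hoelder {α : ℝ} (h0 : 0 < α) (h1 : α ≤ 1 / 2) (x y : ℝ) :
    |Gf α x - Gf α y| ≤ (Real.sin ((x - y) / 2) ^ 2) ^ α := by
  rw [Gf, Gf]
  refine (abs_rpow_sub_le (abs_nonneg _) (abs_nonneg _) (by linarith) (by linarith)).trans ?_
  have h2 : (Real.sin ((x - y) / 2) ^ 2) ^ α = |Real.sin ((x - y) / 2)| ^ (2 * α) := by
    rw [← sq_abs, ← Real.rpow_natCast, ← Real.rpow_mul (abs_nonneg _)]
    congr 1
  rw [h2]
  refine Real.rpow_le_rpow (abs_nonneg _) ?_ (by linarith)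
  have h3 := abs_sin_sub (x / 2) (y / 2)
  rwa [← sub_div] at h3

/-- The approximation. -/
noncomputable def Pj (K : ℕ) (α x : ℝ) : ℝ :=
  (∑ j : Fin (2 * K), Gf α (nd (2 * K) j) * w2 K (x - nd (2 * K) j) ^ 2) / (2 * K * En K)

theorem Pj_sub_le {K : ℕ} (hK : 1 ≤ K) {α : ℝ} (h0 : 0 < α) (h1 : α ≤ 1 / 2) (x : ℝ) :
    |Pj K α x - Gf α x| ≤ (2 / (K : ℝ) ^ 2) ^ α := by
  have hK0 : (0 : ℝ) < K := by exact_mod_cast hK
  have hE := En_ge hK
  have hE0 : 0 < En K := lt_of_lt_of_le (by positivity) hE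
  obtain ⟨Z, hZ⟩ : ∃ Z : ℝ, Z = 2 * K * En K := ⟨_, rfl⟩
  have hZ0 : 0 < Z := by rw [hZ]; positivity
  obtain ⟨p, hp⟩ : ∃ p : Fin (2 * K) → ℝ, p = fun j => w2 K (x - nd (2 * K) j) ^ 2 / Z := ⟨_, rfl⟩
  obtain ⟨t, ht⟩ : ∃ t : Fin (2 * K) → ℝ, t = fun j => Real.sin ((x - nd (2 * K) j) / 2) ^ 2 :=
    ⟨_, rfl⟩
  have hp0 : ∀ j ∈ (Finset.univ : Finset (Fin (2 * K))), 0 ≤ p j := by
    intro j _
    rw [hp]
    exact div_nonneg (sq_nonneg _) hZ0.le
  have hp1 : ∑ j, p j = 1 := by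
    rw [hp]
    simp only []
    rw [← Finset.sum_div, sum_w4 hK, ← hZ, div_self hZ0.ne']
  have ht0 : ∀ j, 0 ≤ t j := by
    intro j
    rw [ht]
    exact sq_nonneg _
  have hPj : Pj K α x - Gf α x = ∑ j, p j * (Gf α (nd (2 * K) j) - Gf α x) := by
    have h2 : Gf α x = ∑ j, p j * Gf α x := by
      rw [← Finset.sum_mul, hp1, one_mul]
    have h3 : Pj K α x = ∑ j, p j * Gf α (nd (2 * K) j) := by
      rw [Pj, ← hZ, Finset.sum_div, hp]
      refine Finset.sum_congr rfl fun j _ => ?_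
      simp only []
      ring
    rw [h3]
    conv_lhs => rw [h2]
    rw [← Finset.sum_sub_distrib]
    refine Finset.sum_congr rfl fun j _ => ?_
    ring
  have h2 : |Pj K α x - Gf α x| ≤ ∑ j, p j * t j ^ α := by
    rw [hPj]
    refine (Finset.abs_sum_le_sum_abs _ _).trans (Finset.sum_le_sum fun j hj => ?_)
    rw [abs_mul, abs_of_nonneg (hp0 j hj), abs_sub_comm]
    refine mul_le_mul_of_nonneg_left ?_ (hp0 j hj)
    rw [ht]
    exact Gf_hoelder h0 h1 _ _
  have h3 : ∑ j, p j * t j ≤ 2 / (K : ℝ) ^ 2 := by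
    have h4 : ∑ j, p j * t j ≤ ∑ j, w2 K (x - nd (2 * K) j) / Z := by
      refine Finset.sum_le_sum fun j _ => ?_
      rw [hp, ht]
      simp only []
      rw [div_mul_eq_mul_div]
      refine div_le_div_of_nonneg_right ?_ hZ0.le
      have h5 := sin_sq_mul_w2 K (x - nd (2 * K) j)
      have h6 := w2_nonneg K (x - nd (2 * K) j)
      calc w2 K (x - nd (2 * K) j) ^ 2 * Real.sin ((x - nd (2 * K) j) / 2) ^ 2
          = (Real.sin ((x - nd (2 * K) j) / 2) ^ 2 * w2 K (x - nd (2 * K) j)) *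
            w2 K (x - nd (2 * K) j) := by ring
        _ ≤ 1 * w2 K (x - nd (2 * K) j) := mul_le_mul_of_nonneg_right h5 h6
        _ = _ := one_mul _
    refine h4.trans ?_
    rw [← Finset.sum_div, sum_w2 hK, hZ, div_le_div_iff₀ (by positivity) (by positivity)]
    have h5 : 2 * (K : ℝ) * K * K ^ 2 = 4 * K * (K ^ 3 / 2) := by ring
    rw [h5]
    have h6 := mul_le_mul_of_nonneg_left hE (by positivity : (0 : ℝ) ≤ 4 * K)
    linarith
  have h4 : (∑ j, p j * t j ^ α) ^ (1 / α) ≤ ∑ j, p j * t j := by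
    have h5 := Real.rpow_arith_mean_le_arith_mean_rpow (Finset.univ : Finset (Fin (2 * K))) p
      (fun j => t j ^ α) hp0 hp1 (fun j _ => Real.rpow_nonneg (ht0 j) _) (p := 1 / α)
      (by rw [le_div_iff₀ h0]; linarith)
    refine h5.trans (le_of_eq ?_)
    refine Finset.sum_congr rfl fun j _ => ?_
    rw [← Real.rpow_mul (ht0 j), mul_one_div_cancel h0.ne', Real.rpow_one]
  have h5 : 0 ≤ ∑ j, p j * t j ^ α :=
    Finset.sum_nonneg fun j hj => mul_nonneg (hp0 j hj) (Real.rpow_nonneg (ht0 j) _)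
  have h6 : ∑ j, p j * t j ^ α = ((∑ j, p j * t j ^ α) ^ (1 / α)) ^ α := by
    rw [← Real.rpow_mul h5, one_div_mul_cancel h0.ne', Real.rpow_one]
  refine h2.trans ?_
  rw [h6]
  exact Real.rpow_le_rpow (Real.rpow_nonneg h5 _) (h4.trans h3) h0.le

theorem cos_natAbs (n : ℤ) (x : ℝ) : Real.cos (n * x) = ch n.natAbs (Real.cos x) := by
  rw [ch_cos]
  rcases Int.natAbs_eq n with h | h
  · conv_lhs => rw [h]
    simp
  · conv_lhs => rw [h]
    rw [Int.cast_neg, Int.cast_natCast, neg_mul, Real.cos_neg]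

/-- Approximation of `s ^ α` on `[0, 1]`. -/
theorem jackson {K : ℕ} (hK : 1 ≤ K) {α : ℝ} (h0 : 0 < α) (h1 : α ≤ 1 / 2) :
    ∃ (ι : Type) (_ : Fintype ι) (c : ι → ℝ) (n : ι → ℕ), (∀ i, n i < 2 * K) ∧
      ∑ i, |c i| ≤ 2 * K ∧ ∀ s : ℝ, 0 ≤ s → s ≤ 1 →
        |s ^ α - ∑ i, c i * ch (n i) (1 - 2 * s)| ≤ (2 / (K : ℝ) ^ 2) ^ α := by
  have hK0 : (0 : ℝ) < K := by exact_mod_cast hK
  have hE := En_ge hK
  have hE0 : 0 < En K := lt_of_lt_of_le (by positivity) hE
  obtain ⟨Z, hZ⟩ : ∃ Z : ℝ, Z = 2 * K * En K := ⟨_, rfl⟩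
  have hZ0 : 0 < Z := by rw [hZ]; positivity
  refine ⟨Fin (2 * K) × ((Fin K × Fin K) × (Fin K × Fin K)), inferInstance,
    fun i => Gf α (nd (2 * K) i.1) * Real.cos (n4 K i.2 * nd (2 * K) i.1) / Z,
    fun i => (n4 K i.2).natAbs, ?_, ?_, ?_⟩
  · intro i
    show (n4 K i.2).natAbs < 2 * K
    have := n4_lt i.2
    rw [Int.abs_eq_natAbs] at this
    omega
  · have h2 : ∀ i : Fin (2 * K) × ((Fin K × Fin K) × (Fin K × Fin K)),
        |Gf α (nd (2 * K) i.1) * Real.cos (n4 K i.2 * nd (2 * K) i.1) / Z| ≤ 1 / Z := by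
      intro i
      rw [abs_div, abs_of_pos hZ0, abs_mul, abs_of_nonneg (Gf_nonneg _ _)]
      refine div_le_div_of_nonneg_right ?_ hZ0.le
      exact mul_le_one₀ (Gf_le_one h0.le _) (abs_nonneg _) (Real.abs_cos_le_one _)
    refine (Finset.sum_le_sum fun i _ => h2 i).trans ?_
    rw [Finset.sum_const, nsmul_eq_mul, Finset.card_univ, Fintype.card_prod, Fintype.card_prod,
      Fintype.card_prod, Fintype.card_fin, Fintype.card_fin]
    push_cast
    rw [mul_one_div, div_le_iff₀ hZ0, hZ]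
    have h3 : 2 * (K : ℝ) * (K * K * (K * K)) = 4 * K ^ 2 * (K ^ 3 / 2) := by ring
    rw [h3]
    have h4 := mul_le_mul_of_nonneg_left hE (by positivity : (0 : ℝ) ≤ 4 * K ^ 2)
    linarith
  · intro s hs0 hs1
    obtain ⟨x, hx⟩ : ∃ x : ℝ, Real.sin (x / 2) = Real.sqrt s := by
      refine ⟨2 * Real.arcsin (Real.sqrt s), ?_⟩
      rw [mul_div_cancel_left₀ _ (two_ne_zero)]
      refine Real.sin_arcsin ?_ ?_
      · linarith [Real.sqrt_nonneg s]
      · exact Real.sqrt_le_one.2 hs1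
    have hG : Gf α x = s ^ α := by
      rw [Gf, hx, abs_of_nonneg (Real.sqrt_nonneg _), Real.rpow_mul (Real.sqrt_nonneg _)]
      congr 1
      have : (Real.sqrt s) ^ (2 : ℝ) = (Real.sqrt s) ^ 2 := by
        rw [← Real.rpow_natCast]
        norm_num
      rw [this, Real.sq_sqrt hs0]
    have hcos : Real.cos x = 1 - 2 * s := by
      have h2 := Real.cos_two_mul (x / 2)
      rw [mul_div_cancel₀ x (two_ne_zero)] at h2
      rw [h2, Real.cos_sq', hx, Real.sq_sqrt hs0]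
      ring
    have hsum : ∑ i : Fin (2 * K) × ((Fin K × Fin K) × (Fin K × Fin K)),
        Gf α (nd (2 * K) i.1) * Real.cos (n4 K i.2 * nd (2 * K) i.1) / Z *
          ch (n4 K i.2).natAbs (1 - 2 * s) = (Pj K α x + Pj K α (-x)) / 2 := by
      rw [Pj, Pj, ← hZ, ← add_div, ← Finset.sum_add_distrib, div_div, Finset.sum_div,
        Fintype.sum_prod_type]
      refine Finset.sum_congr rfl fun j _ => ?_
      rw [w4_cos, w4_cos, ← mul_add, ← Finset.sum_add_distrib, Finset.mul_sum, Finset.sum_div]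
      refine Finset.sum_congr rfl fun a _ => ?_
      rw [← hcos, ← cos_natAbs]
      have h2 : Real.cos (n4 K a * (x - nd (2 * K) j)) + Real.cos (n4 K a * (-x - nd (2 * K) j)) =
          2 * (Real.cos (n4 K a * nd (2 * K) j) * Real.cos (n4 K a * x)) := by
        have e1 : (n4 K a : ℝ) * (x - nd (2 * K) j) = n4 K a * x - n4 K a * nd (2 * K) j := by ring
        have e2 : (n4 K a : ℝ) * (-x - nd (2 * K) j) = -(n4 K a * x + n4 K a * nd (2 * K) j) := by
          ring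
        rw [e1, e2, Real.cos_neg, Real.cos_sub, Real.cos_add]
        ring
      rw [h2]
      field_simp
    rw [hsum, ← hG]
    have h2 := abs_le.1 (Pj_sub_le hK h0 h1 x)
    have h3 := Pj_sub_le hK h0 h1 (-x)
    rw [Gf_neg] at h3
    have h4 := abs_le.1 h3
    rw [abs_le]
    constructor
    · linarith [h2.2, h4.2]
    · linarith [h2.1, h4.1]

end Pool.Agent.H65.CP
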