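import Pool.Agent.H65.CP.Fou

/-!
# A class of functions stable under multiplication by absolutely convergent series

`Lam γ g l`: the Fourier coefficients of `g` have sum at most `l * |F| ^ γ` over each finite set `F`.
-/

open Finset MeasureTheory

namespace Pool.Agent.H65.CP

def Lam (γ : ℝ) (g : ℝ → ℂ) (l : ℝ) : Prop :=
  ∀ F : Finset ℤ, ∑ h ∈ F, ‖fc g h‖ ≤ l * (F.card : ℝ) ^ γ

variable {γ l l' : ℝ} {g g' : ℝ → ℂ}

theorem Lam.le (H : Lam γ g l) (h : ℤ) : ‖fc g h‖ ≤ l := by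
  have h1 := H {h}
  rw [Finset.sum_singleton, Finset.card_singleton, Nat.cast_one, Real.one_rpow, mul_one] at h1
  exact h1

theorem Lam.nonneg (H : Lam γ g l) : 0 ≤ l := (norm_nonneg _).trans (H.le 0)

theorem Lam.mono (H : Lam γ g l) (h : l ≤ l') : Lam γ g l' := fun F =>
  (H F).trans (mul_le_mul_of_nonneg_right h (Real.rpow_nonneg (Nat.cast_nonneg _) _))

theorem Lam.congr (H : Lam γ g l) (h : ∀ θ, g θ = g' θ) : Lam γ g' l := by
  have : g = g' := funext h
  rwa [this] at H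

theorem Lam.add (hg : Continuous g) (hg' : Continuous g') (H : Lam γ g l) (H' : Lam γ g' l') :
    Lam γ (fun θ => g θ + g' θ) (l + l') := by
  intro F
  have h1 := H F
  have h2 := H' F
  calc ∑ h ∈ F, ‖fc (fun θ => g θ + g' θ) h‖ ≤ ∑ h ∈ F, (‖fc g h‖ + ‖fc g' h‖) := by
        refine Finset.sum_le_sum fun h _ => ?_
        rw [fc_add hg hg']
        exact norm_add_le _ _
    _ = ∑ h ∈ F, ‖fc g h‖ + ∑ h ∈ F, ‖fc g' h‖ := Finset.sum_add_distrib
    _ ≤ (l + l') * (F.card : ℝ) ^ γ := by rw [add_mul]; exact add_le_add h1 h2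

theorem Lam.const_mul (c : ℂ) (H : Lam γ g l) : Lam γ (fun θ => c * g θ) (‖c‖ * l) := by
  intro F
  calc ∑ h ∈ F, ‖fc (fun θ => c * g θ) h‖ = ∑ h ∈ F, ‖c‖ * ‖fc g h‖ := by
        refine Finset.sum_congr rfl fun h _ => ?_
        rw [fc_const_mul, norm_mul]
    _ = ‖c‖ * ∑ h ∈ F, ‖fc g h‖ := (Finset.mul_sum _ _ _).symm
    _ ≤ ‖c‖ * (l * (F.card : ℝ) ^ γ) := mul_le_mul_of_nonneg_left (H F) (norm_nonneg _)
    _ = _ := by ring

theorem Lam.mul_series {ι : Type} [Countable ι] {w : ι → ℂ} {φ : ι → ℤ}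
    (hw : Summable fun i => ‖w i‖) {W : ℝ} (hW : ∑' i, ‖w i‖ ≤ W) {s : ℝ → ℂ} (hg : Continuous g)
    (hs : ∀ θ, HasSum (fun i => w i * ex (φ i) θ) (s θ)) (H : Lam γ g l) :
    Lam γ (fun θ => s θ * g θ) (W * l) := by
  intro F
  have hl := H.nonneg
  have h1 : ∀ h, Summable fun i => ‖w i‖ * ‖fc g (h - φ i)‖ := fun h =>
    Summable.of_nonneg_of_le (fun i => by positivity)
      (fun i => mul_le_mul_of_nonneg_left (H.le _) (norm_nonneg _)) (hw.mul_right l)
  have h2 : ∀ h, ‖fc (fun θ => s θ * g θ) h‖ ≤ ∑' i, ‖w i‖ * ‖fc g (h - φ i)‖ := by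
    intro h
    rw [← (fc_series hw hg hs h).tsum_eq]
    have h3 : Summable fun i => ‖w i * fc g (h - φ i)‖ := by
      refine (h1 h).congr fun i => ?_
      rw [norm_mul]
    refine (norm_tsum_le_tsum_norm h3).trans (le_of_eq ?_)
    exact tsum_congr fun i => norm_mul _ _
  calc ∑ h ∈ F, ‖fc (fun θ => s θ * g θ) h‖ ≤ ∑ h ∈ F, ∑' i, ‖w i‖ * ‖fc g (h - φ i)‖ :=
        Finset.sum_le_sum fun h _ => h2 h
    _ = ∑' i, ∑ h ∈ F, ‖w i‖ * ‖fc g (h - φ i)‖ :=
        (Summable.tsum_finsetSum fun h _ => h1 h).symm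
    _ ≤ ∑' i, ‖w i‖ * (l * (F.card : ℝ) ^ γ) := by
        refine Summable.tsum_le_tsum (fun i => ?_) (summable_sum fun h _ => h1 h)
          (hw.mul_right _)
        rw [← Finset.mul_sum]
        refine mul_le_mul_of_nonneg_left ?_ (norm_nonneg _)
        have h4 := H (F.map (Equiv.subRight (φ i)).toEmbedding)
        rw [Finset.sum_map, Finset.card_map] at h4
        exact h4
    _ = (∑' i, ‖w i‖) * (l * (F.card : ℝ) ^ γ) := tsum_mul_right
    _ ≤ W * (l * (F.card : ℝ) ^ γ) := mul_le_mul_of_nonneg_right hW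
        (mul_nonneg hl (Real.rpow_nonneg (Nat.cast_nonneg _) _))
    _ = _ := by ring

/-- The Chebyshev polynomials. -/
noncomputable def ch : ℕ → ℝ → ℝ
  | 0, _ => 1
  | 1, x => x
  | n + 2, x => 2 * x * ch (n + 1) x - ch n x

theorem ch_cos (n : ℕ) (x : ℝ) : ch n (Real.cos x) = Real.cos (n * x) := by
  induction n using Nat.twoStepInduction with
  | zero => simp [ch]
  | one => simp [ch]
  | more n h1 h2 =>
    rw [ch, h1, h2]
    push_cast
    have e1 : ((n : ℝ) + 2) * x = ((n : ℝ) + 1) * x + x := by ring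
    have e2 : (n : ℝ) * x = ((n : ℝ) + 1) * x - x := by ring
    rw [e1, e2, Real.cos_add, Real.cos_sub]
    ring

theorem continuous_ch (n : ℕ) : Continuous (ch n) := by
  induction n using Nat.twoStepInduction with
  | zero => exact continuous_const
  | one => exact continuous_id
  | more n h1 h2 => exact ((continuous_const.mul continuous_id).mul h2).sub h1

theorem Lam.ch {ι : Type} [Countable ι] {w : ι → ℂ} {φ : ι → ℤ}
    (hw : Summable fun i => ‖w i‖) (hW : ∑' i, ‖w i‖ ≤ 1) {s : ℝ → ℝ} (hsc : Continuous s)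
    (hg : Continuous g) (hs : ∀ θ, HasSum (fun i => w i * ex (φ i) θ) ((s θ : ℝ) : ℂ))
    (H : Lam γ g l) (n : ℕ) :
    Lam γ (fun θ => ((CP.ch n (1 - 2 * s θ) : ℝ) : ℂ) * g θ) (7 ^ n * l) := by
  have hl := H.nonneg
  have hcont : ∀ n, Continuous fun θ => ((CP.ch n (1 - 2 * s θ) : ℝ) : ℂ) * g θ := fun n =>
    (Complex.continuous_ofReal.comp ((continuous_ch n).comp
      (continuous_const.sub (continuous_const.mul hsc)))).mul hg
  have hsC : Continuous fun θ => ((s θ : ℝ) : ℂ) := Complex.continuous_ofReal.comp hsc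
  induction n using Nat.twoStepInduction with
  | zero =>
    rw [pow_zero, one_mul]
    refine H.congr fun θ => ?_
    simp [CP.ch]
  | one =>
    have h1 := H.mul_series hw hW hg hs
    have h2 := Lam.add (g := g) (g' := fun θ => (-2 : ℂ) * (((s θ : ℝ) : ℂ) * g θ)) hg
      (continuous_const.mul (hsC.mul hg)) H (h1.const_mul (-2))
    refine (h2.mono ?_).congr fun θ => ?_
    · rw [norm_neg, Complex.norm_ofNat, pow_one]
      linarith
    · simp only [CP.ch]
      push_cast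
      ring
  | more n h1 h2 =>
    have h3 := h2.mul_series hw hW (hcont (n + 1)) hs
    have h4 := Lam.add
      (g := fun θ => (2 : ℂ) * (((CP.ch (n + 1) (1 - 2 * s θ) : ℝ) : ℂ) * g θ))
      (g' := fun θ => (-4 : ℂ) * (((s θ : ℝ) : ℂ) * (((CP.ch (n + 1) (1 - 2 * s θ) : ℝ) : ℂ) * g θ)))
      (continuous_const.mul (hcont (n + 1)))
      (continuous_const.mul (hsC.mul (hcont (n + 1)))) (h2.const_mul 2) (h3.const_mul (-4))
    have h5 := Lam.add
      (g := fun θ => (2 : ℂ) * (((CP.ch (n + 1) (1 - 2 * s θ) : ℝ) : ℂ) * g θ) +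
        (-4 : ℂ) * (((s θ : ℝ) : ℂ) * (((CP.ch (n + 1) (1 - 2 * s θ) : ℝ) : ℂ) * g θ)))
      (g' := fun θ => (-1 : ℂ) * (((CP.ch n (1 - 2 * s θ) : ℝ) : ℂ) * g θ))
      ((continuous_const.mul (hcont (n + 1))).add
      (continuous_const.mul (hsC.mul (hcont (n + 1))))) (continuous_const.mul (hcont n))
      h4 (h1.const_mul (-1))
    refine (h5.mono ?_).congr fun θ => ?_
    · rw [norm_neg, norm_neg, Complex.norm_ofNat, Complex.norm_ofNat, norm_one]
      have h6 : (0 : ℝ) ≤ 7 ^ n * l := by positivity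
      have h7 : (7 : ℝ) ^ (n + 1) * l = 7 * (7 ^ n * l) := by ring
      have h8 : (7 : ℝ) ^ (n + 2) * l = 49 * (7 ^ n * l) := by ring
      rw [h7, h8]
      linarith
    · simp only [CP.ch]
      push_cast
      ring

theorem Lam.sum {ι : Type} (t : Finset ι) {G : ι → ℝ → ℂ} {L : ι → ℝ}
    (hG : ∀ i ∈ t, Continuous (G i)) (H : ∀ i ∈ t, Lam γ (G i) (L i)) :
    Lam γ (fun θ => ∑ i ∈ t, G i θ) (∑ i ∈ t, L i) := by
  classical
  induction t using Finset.induction_on with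
  | empty =>
    intro F
    simp [fc]
  | insert a t ha ih =>
    have h1 := (H a (mem_insert_self _ _)).add (g' := fun θ => ∑ i ∈ t, G i θ)
      (hG a (mem_insert_self _ _))
      (continuous_finsetSum t fun i hi => hG i (mem_insert_of_mem hi))
      (ih (fun i hi => hG i (mem_insert_of_mem hi)) (fun i hi => H i (mem_insert_of_mem hi)))
    rw [Finset.sum_insert ha]
    exact h1.congr fun θ => (Finset.sum_insert (f := fun i => G i θ) ha).symm

end Pool.Agent.H65.CP
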