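import Pool.Agent.H65.CP.Lam
import Pool.Agent.H99.Jump.Jump

/-!
# The square of the modulus of a power series on a circle; the power series of `(1 - z) ^ (-β)`
-/

open Finset MeasureTheory PowerSeries
open Pool.Agent.H99.Inc Pool.Agent.H99.Jump

namespace Pool.Agent.H65.CP

/-- The value of a power series on the circle of radius `ρ`. -/
noncomputable def cir (f : PowerSeries ℝ) (ρ θ : ℝ) : ℂ := ev f (ρ * Complex.exp (θ * Complex.I))

/-- The square of the modulus. -/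
noncomputable def sqm (f : PowerSeries ℝ) (ρ θ : ℝ) : ℝ := ‖cir f ρ θ‖ ^ 2

theorem sqm_nonneg (f : PowerSeries ℝ) (ρ θ : ℝ) : 0 ≤ sqm f ρ θ := sq_nonneg _

theorem continuous_sqm {f : PowerSeries ℝ} {ρ : ℝ} (h0 : 0 ≤ ρ) (hf : AbsConv f ρ) :
    Continuous (sqm f ρ) := (continuous_ev h0 hf).norm.pow 2

theorem norm_circle {ρ : ℝ} (h0 : 0 ≤ ρ) (θ : ℝ) :
    ‖(ρ : ℂ) * Complex.exp (θ * Complex.I)‖ = ρ := by
  rw [norm_mul, Complex.norm_exp_ofReal_mul_I, mul_one, Complex.norm_real, Real.norm_of_nonneg h0]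

theorem hasSum_cir {f : PowerSeries ℝ} {ρ : ℝ} (h0 : 0 ≤ ρ) (hf : AbsConv f ρ) (θ : ℝ) :
    HasSum (fun n : ℕ => ((coeff n f * ρ ^ n : ℝ) : ℂ) * ex n θ) (cir f ρ θ) := by
  have h1 : ∀ n : ℕ, ((coeff n f : ℝ) : ℂ) * ((ρ : ℂ) * Complex.exp (θ * Complex.I)) ^ n =
      ((coeff n f * ρ ^ n : ℝ) : ℂ) * ex n θ := by
    intro n
    rw [mul_pow, ← Complex.exp_nat_mul, ex]
    push_cast
    ring
  have h2 : Summable fun n : ℕ => ((coeff n f * ρ ^ n : ℝ) : ℂ) * ex n θ := by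
    refine Summable.of_norm ?_
    refine hf.congr fun n => ?_
    rw [norm_mul, norm_ex, mul_one, Complex.norm_real, norm_mul, norm_pow, Real.norm_eq_abs,
      Real.norm_of_nonneg h0]
  have h3 : cir f ρ θ = ∑' n : ℕ, ((coeff n f * ρ ^ n : ℝ) : ℂ) * ex n θ := by
    rw [cir, ev]
    exact tsum_congr h1
  rw [h3]
  exact h2.hasSum

/-- The weights of the double series. -/
noncomputable def wt (f : PowerSeries ℝ) (ρ : ℝ) (x : ℕ × ℕ) : ℝ :=
  (coeff x.1 f * ρ ^ x.1) * (coeff x.2 f * ρ ^ x.2)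

/-- The frequencies of the double series. -/
def fr (x : ℕ × ℕ) : ℤ := (x.1 : ℤ) - (x.2 : ℤ)

theorem summable_wt {f : PowerSeries ℝ} {ρ : ℝ} (h0 : 0 ≤ ρ) (hf : AbsConv f ρ) :
    Summable fun x : ℕ × ℕ => ‖((wt f ρ x : ℝ) : ℂ)‖ := by
  have h1 : Summable fun n => |coeff n f| * ρ ^ n := hf
  refine (h1.mul_of_nonneg h1 (fun n => by positivity) (fun n => by positivity)).congr fun x => ?_
  rw [wt, Complex.norm_real, norm_mul, norm_mul, norm_mul, norm_pow, norm_pow]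
  simp only [Real.norm_eq_abs, abs_of_nonneg h0]

theorem tsum_wt {f : PowerSeries ℝ} {ρ : ℝ} (h0 : 0 ≤ ρ) (hf : AbsConv f ρ) :
    ∑' x : ℕ × ℕ, ‖((wt f ρ x : ℝ) : ℂ)‖ = (∑' n, |coeff n f| * ρ ^ n) ^ 2 := by
  have h1 : Summable fun n => |coeff n f| * ρ ^ n := hf
  have h2 := h1.mul_of_nonneg h1 (fun n => by positivity) (fun n => by positivity)
  rw [sq, h1.tsum_mul_tsum h1 h2]
  refine tsum_congr fun x => ?_
  rw [wt, Complex.norm_real, norm_mul, norm_mul, norm_mul, norm_pow, norm_pow]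
  simp only [Real.norm_eq_abs, abs_of_nonneg h0]

theorem hasSum_sqm {f : PowerSeries ℝ} {ρ : ℝ} (h0 : 0 ≤ ρ) (hf : AbsConv f ρ) (θ : ℝ) :
    HasSum (fun x : ℕ × ℕ => ((wt f ρ x : ℝ) : ℂ) * ex (fr x) θ) ((sqm f ρ θ : ℝ) : ℂ) := by
  have h1 := hasSum_cir h0 hf θ
  have h2 : HasSum (fun n : ℕ => ((coeff n f * ρ ^ n : ℝ) : ℂ) * ex (-n) θ)
      ((starRingEnd ℂ) (cir f ρ θ)) := by
    have h3 := h1.map (starRingEnd ℂ) Complex.continuous_conj
    have h4 : (starRingEnd ℂ) ∘ (fun n : ℕ => ((coeff n f * ρ ^ n : ℝ) : ℂ) * ex n θ) =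
        fun n : ℕ => ((coeff n f * ρ ^ n : ℝ) : ℂ) * ex (-n) θ := by
      funext n
      rw [Function.comp_apply, map_mul, Complex.conj_ofReal]
      congr 1
      rw [ex, ex, ← Complex.exp_conj]
      congr 1
      simp [Complex.conj_ofReal]
    rw [h4] at h3
    exact h3
  have h3 := h1.mul h2 (by
    refine Summable.of_norm ?_
    refine (summable_wt h0 hf).congr fun x => ?_
    rw [norm_mul, norm_mul, norm_mul, norm_ex, norm_ex, mul_one, mul_one, wt, Complex.ofReal_mul,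
      norm_mul])
  have h4 : (fun x : ℕ × ℕ => ((coeff x.1 f * ρ ^ x.1 : ℝ) : ℂ) * ex x.1 θ *
      (((coeff x.2 f * ρ ^ x.2 : ℝ) : ℂ) * ex (-x.2) θ)) =
      fun x : ℕ × ℕ => ((wt f ρ x : ℝ) : ℂ) * ex (fr x) θ := by
    funext x
    rw [fr, sub_eq_add_neg, ex_add]
    simp only [wt, Complex.ofReal_mul]
    ring
  rw [h4, Complex.mul_conj'] at h3
  have h5 : ((sqm f ρ θ : ℝ) : ℂ) = (‖cir f ρ θ‖ : ℂ) ^ 2 := by
    rw [sqm]
    push_cast
    rfl
  rw [h5]
  exact h3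

theorem fc_sqm {f : PowerSeries ℝ} {ρ : ℝ} (h0 : 0 ≤ ρ) (hf : AbsConv f ρ) (h : ℤ) :
    HasSum (fun x : ℕ × ℕ => if fr x = h then ((wt f ρ x : ℝ) : ℂ) else 0)
      (fc (fun θ => ((sqm f ρ θ : ℝ) : ℂ)) h) := by
  have h1 := fc_series (summable_wt h0 hf) (g := fun _ => 1) continuous_const (hasSum_sqm h0 hf) h
  have h2 : (fun x : ℕ × ℕ => ((wt f ρ x : ℝ) : ℂ) * fc (fun _ => 1) (h - fr x)) =
      fun x : ℕ × ℕ => if fr x = h then ((wt f ρ x : ℝ) : ℂ) else 0 := by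
    funext x
    rw [fc_one]
    by_cases h3 : fr x = h
    · rw [if_pos h3, if_pos (by rw [h3, sub_self]), mul_one]
    · rw [if_neg h3, if_neg (fun h4 => h3 (sub_eq_zero.1 h4).symm), mul_zero]
  rw [h2] at h1
  simp only [mul_one] at h1
  exact h1

/-- The Fourier coefficients are correlations. -/
theorem fc_sqm_eq {f : PowerSeries ℝ} {ρ : ℝ} (h0 : 0 ≤ ρ) (hf : AbsConv f ρ) (h : ℤ) :
    HasSum (fun n : ℕ => ((wt f ρ (n, n + h.natAbs) : ℝ) : ℂ))
      (fc (fun θ => ((sqm f ρ θ : ℝ) : ℂ)) h) := by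
  have h1 := fc_sqm h0 hf h
  rcases Int.natAbs_eq h with hh | hh
  · have hinj : Function.Injective fun n : ℕ => ((n + h.natAbs, n) : ℕ × ℕ) :=
      fun a b hab => (Prod.ext_iff.1 hab).2
    rw [← hinj.hasSum_iff (by
      intro x hx
      rw [if_neg]
      intro h2
      apply hx
      refine ⟨x.2, Prod.ext ?_ rfl⟩
      show x.2 + h.natAbs = x.1
      rw [fr] at h2
      omega)] at h1
    have h3 : (fun x : ℕ × ℕ => if fr x = h then ((wt f ρ x : ℝ) : ℂ) else 0) ∘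
        (fun n : ℕ => ((n + h.natAbs, n) : ℕ × ℕ)) =
        fun n : ℕ => ((wt f ρ (n, n + h.natAbs) : ℝ) : ℂ) := by
      funext n
      rw [Function.comp_apply, if_pos, wt, wt]
      · simp only []
        rw [mul_comm]
      · show ((n + h.natAbs : ℕ) : ℤ) - (n : ℤ) = h
        rw [Nat.cast_add]
        omega
    rw [h3] at h1
    exact h1
  · have hinj : Function.Injective fun n : ℕ => ((n, n + h.natAbs) : ℕ × ℕ) :=
      fun a b hab => (Prod.ext_iff.1 hab).1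
    rw [← hinj.hasSum_iff (by
      intro x hx
      rw [if_neg]
      intro h2
      apply hx
      refine ⟨x.1, Prod.ext rfl ?_⟩
      show x.1 + h.natAbs = x.2
      rw [fr] at h2
      omega)] at h1
    have h3 : (fun x : ℕ × ℕ => if fr x = h then ((wt f ρ x : ℝ) : ℂ) else 0) ∘
        (fun n : ℕ => ((n, n + h.natAbs) : ℕ × ℕ)) =
        fun n : ℕ => ((wt f ρ (n, n + h.natAbs) : ℝ) : ℂ) := by
      funext n
      rw [Function.comp_apply, if_pos]
      show (n : ℤ) - ((n + h.natAbs : ℕ) : ℤ) = h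
      rw [Nat.cast_add]
      omega
    rw [h3] at h1
    exact h1

/-! ### The coefficients of `(1 - z) ^ (-β)` -/

theorem bc_antitone {β : ℝ} (h0 : 0 < β) (h1 : β ≤ 1) : Antitone (bc β) := by
  refine antitone_nat_of_succ_le fun n => ?_
  rw [bc_succ]
  have h2 := bc_pos h0 n
  refine mul_le_of_le_one_right h2.le ?_
  rw [div_le_one (by positivity)]
  linarith

theorem rpow_tel {e : ℝ} (he : 0 < e) {n : ℕ} (hn : 1 ≤ n) :
    e * ((n : ℝ) + 1) ^ (-e - 1) ≤ (n : ℝ) ^ (-e) - ((n : ℝ) + 1) ^ (-e) := by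
  have hn0 : (0 : ℝ) < n := by exact_mod_cast hn
  have hn1 : (0 : ℝ) < (n : ℝ) + 1 := by linarith
  have h1 : (n : ℝ) ^ (-e) = ((n : ℝ) + 1) ^ (-e) * (((n : ℝ) + 1) / n) ^ e := by
    rw [Real.div_rpow hn1.le hn0.le, Real.rpow_neg hn1.le, Real.rpow_neg hn0.le]
    have := (Real.rpow_pos_of_pos hn1 e).ne'
    field_simp
  have h2 : 1 + e / ((n : ℝ) + 1) ≤ (((n : ℝ) + 1) / n) ^ e := by
    have h3 : (1 : ℝ) / ((n : ℝ) + 1) ≤ Real.log (((n : ℝ) + 1) / n) := by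
      have h4 := Real.one_sub_inv_le_log_of_pos (div_pos hn1 hn0)
      refine le_trans (le_of_eq ?_) h4
      field_simp
      ring
    rw [Real.rpow_def_of_pos (div_pos hn1 hn0)]
    have h4 := Real.add_one_le_exp (Real.log (((n : ℝ) + 1) / n) * e)
    have h5 := mul_le_mul_of_nonneg_right h3 he.le
    rw [div_mul_eq_mul_div, one_mul] at h5
    linarith
  have h3 : ((n : ℝ) + 1) ^ (-e - 1) = ((n : ℝ) + 1) ^ (-e) / ((n : ℝ) + 1) := by
    rw [Real.rpow_sub_one hn1.ne']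
  rw [h1, h3]
  have h4 := mul_le_mul_of_nonneg_left h2 (Real.rpow_nonneg hn1.le (-e))
  have h5 : ((n : ℝ) + 1) ^ (-e) * (1 + e / ((n : ℝ) + 1)) =
      ((n : ℝ) + 1) ^ (-e) + e * (((n : ℝ) + 1) ^ (-e) / ((n : ℝ) + 1)) := by ring
  rw [h5] at h4
  linarith

theorem sum_tail {e : ℝ} (he : 0 < e) (j N : ℕ) :
    ∑ n ∈ Ico (j + 1) N, ((n : ℝ) + 1) ^ (-e - 1) ≤ ((j : ℝ) + 1) ^ (-e) / e := by
  rw [le_div_iff₀ he, mul_comm, Finset.mul_sum]
  rcases le_total N (j + 1) with h | h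
  · rw [Finset.Ico_eq_empty (by omega), Finset.sum_empty]
    positivity
  · have h1 : ∀ n ∈ Ico (j + 1) N, e * ((n : ℝ) + 1) ^ (-e - 1) ≤
        (fun m : ℕ => -((m : ℝ) ^ (-e))) (n + 1) - (fun m : ℕ => -((m : ℝ) ^ (-e))) n := by
      intro n hn
      rw [mem_Ico] at hn
      have h2 := rpow_tel he (by omega : 1 ≤ n)
      simp only []
      push_cast
      linarith
    refine (Finset.sum_le_sum h1).trans ?_
    rw [Finset.sum_Ico_sub (fun m : ℕ => -((m : ℝ) ^ (-e))) h]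
    push_cast
    have : 0 ≤ (N : ℝ) ^ (-e) := Real.rpow_nonneg (Nat.cast_nonneg _) _
    linarith

theorem corr_bound {β : ℝ} (h0 : 0 < β) (h1 : β < 1 / 2) : ∃ C > 0, ∀ j N : ℕ,
    ∑ n ∈ range N, bc β n * bc β (n + j) ≤ C * ((j : ℝ) + 1) ^ (2 * β - 1) := by
  obtain ⟨C₁, hC₁, h2⟩ := bc_upper h0
  obtain ⟨C₂, hC₂, h3⟩ := bc_upper (by linarith : 0 < β + 1)
  refine ⟨C₁ * C₂ + C₁ ^ 2 / (1 - 2 * β), by
    have : 0 < 1 - 2 * β := by linarith
    positivity, fun j N => ?_⟩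
  have hj : (0 : ℝ) < (j : ℝ) + 1 := by positivity
  have hanti := bc_antitone h0 (by linarith)
  have hpos : ∀ n, 0 ≤ bc β n := fun n => (bc_pos h0 n).le
  have h4 : ∑ n ∈ range N, bc β n * bc β (n + j) ≤
      ∑ n ∈ range (j + 1), bc β n * bc β j + ∑ n ∈ Ico (j + 1) N, bc β n ^ 2 := by
    have h5 : ∑ n ∈ range N, bc β n * bc β (n + j) ≤
        ∑ n ∈ range (j + 1) ∪ Ico (j + 1) N, bc β n * bc β (n + j) := by
      refine Finset.sum_le_sum_of_subset_of_nonneg ?_ fun n _ _ => mul_nonneg (hpos _) (hpos _)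
      intro n hn
      rw [mem_union, mem_range, mem_Ico]
      rw [mem_range] at hn
      omega
    refine h5.trans ?_
    rw [Finset.sum_union]
    · refine add_le_add (Finset.sum_le_sum fun n _ => ?_) (Finset.sum_le_sum fun n _ => ?_)
      · exact mul_le_mul_of_nonneg_left (hanti (by omega)) (hpos _)
      · rw [sq]
        exact mul_le_mul_of_nonneg_left (hanti (by omega)) (hpos _)
    · rw [Finset.disjoint_left]
      intro n hn hn'
      rw [mem_range] at hn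
      rw [mem_Ico] at hn'
      omega
  refine h4.trans ?_
  rw [add_mul]
  refine add_le_add ?_ ?_
  · rw [← Finset.sum_mul, sum_bc]
    have h5 := mul_le_mul (h3 j) (h2 j) (hpos j) (by positivity)
    refine h5.trans (le_of_eq ?_)
    have h6 : ((j : ℝ) + 1) ^ (2 * β - 1) = ((j : ℝ) + 1) ^ (β + 1 - 1) * ((j : ℝ) + 1) ^ (β - 1) := by
      rw [← Real.rpow_add hj]
      congr 1
      ring
    rw [h6]
    ring
  · have h5 : ∑ n ∈ Ico (j + 1) N, bc β n ^ 2 ≤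
        ∑ n ∈ Ico (j + 1) N, C₁ ^ 2 * ((n : ℝ) + 1) ^ (-(1 - 2 * β) - 1) := by
      refine Finset.sum_le_sum fun n _ => ?_
      have hn : (0 : ℝ) < (n : ℝ) + 1 := by positivity
      refine (pow_le_pow_left₀ (hpos n) (h2 n) 2).trans (le_of_eq ?_)
      rw [mul_pow, ← Real.rpow_natCast (((n : ℝ) + 1) ^ (β - 1)) 2, ← Real.rpow_mul hn.le]
      congr 2
      push_cast
      ring
    refine h5.trans ?_
    rw [← Finset.mul_sum]
    have h6 := mul_le_mul_of_nonneg_left (sum_tail (by linarith : 0 < 1 - 2 * β) j N)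
      (sq_nonneg C₁)
    refine h6.trans (le_of_eq ?_)
    rw [neg_sub]
    ring

theorem absConv_B {β : ℝ} (h0 : 0 < β) (h1 : β ≤ 1) {ρ : ℝ} (hρ0 : 0 ≤ ρ) (hρ1 : ρ < 1) :
    AbsConv (B β) ρ := by
  unfold AbsConv
  refine Summable.of_nonneg_of_le (fun n => by positivity) (fun n => ?_)
    (summable_geometric_of_lt_one hρ0 hρ1)
  rw [B, coeff_mk, abs_of_nonneg (bc_pos h0 n).le]
  exact mul_le_of_le_one_left (pow_nonneg hρ0 n) (bc_le_one h0.le h1 n)

theorem fc_B_bound {β : ℝ} (h0 : 0 < β) (h1 : β < 1 / 2) : ∃ C > 0, ∀ ρ : ℝ, 0 ≤ ρ → ρ < 1 →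
    ∀ h : ℤ, ‖fc (fun θ => ((sqm (B β) ρ θ : ℝ) : ℂ)) h‖ ≤
      C * ((h.natAbs : ℝ) + 1) ^ (2 * β - 1) := by
  obtain ⟨C, hC, h2⟩ := corr_bound h0 h1
  refine ⟨C, hC, fun ρ hρ0 hρ1 h => ?_⟩
  have hA := absConv_B h0 (by linarith) hρ0 hρ1
  have h3 := fc_sqm_eq hρ0 hA h
  rw [← h3.tsum_eq, ← Complex.ofReal_tsum, Complex.norm_real]
  have hw : ∀ n, 0 ≤ wt (B β) ρ (n, n + h.natAbs) ∧
      wt (B β) ρ (n, n + h.natAbs) ≤ bc β n * bc β (n + h.natAbs) := by
    intro n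
    have h4 := (bc_pos h0 n).le
    have h5 := (bc_pos h0 (n + h.natAbs)).le
    rw [wt, B, coeff_mk, coeff_mk]
    simp only []
    refine ⟨by positivity, ?_⟩
    refine mul_le_mul ?_ ?_ (by positivity) h4
    · exact mul_le_of_le_one_right h4 (pow_le_one₀ hρ0 hρ1.le)
    · exact mul_le_of_le_one_right h5 (pow_le_one₀ hρ0 hρ1.le)
  rw [Real.norm_of_nonneg (tsum_nonneg fun n => (hw n).1)]
  refine Real.tsum_le_of_sum_range_le (fun n => (hw n).1) fun N => ?_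
  exact (Finset.sum_le_sum fun n _ => (hw n).2).trans (h2 _ _)

theorem sum_rpow_range {γ : ℝ} (h0 : 0 < γ) (h1 : γ ≤ 1) (M : ℕ) :
    ∑ j ∈ range M, ((j : ℝ) + 1) ^ (γ - 1) ≤ (M : ℝ) ^ γ / γ := by
  induction M with
  | zero =>
    rw [Finset.sum_range_zero]
    positivity
  | succ M ih =>
    rw [Finset.sum_range_succ]
    have hM : (0 : ℝ) < (M : ℝ) + 1 := by positivity
    have h2 : (M : ℝ) ^ γ ≤ ((M : ℝ) + 1) ^ γ - γ * ((M : ℝ) + 1) ^ (γ - 1) := by
      have h3 : (M : ℝ) = ((M : ℝ) + 1) * (1 + -(1 / ((M : ℝ) + 1))) := by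
        field_simp
        ring
      have h4 : (-1 : ℝ) ≤ -(1 / ((M : ℝ) + 1)) := by
        rw [neg_le_neg_iff, div_le_one hM]
        linarith [(Nat.cast_nonneg M : (0 : ℝ) ≤ M)]
      have h5 := rpow_one_add_le_one_add_mul_self h4 h0.le h1
      have h6 : (M : ℝ) ^ γ = ((M : ℝ) + 1) ^ γ * (1 + -(1 / ((M : ℝ) + 1))) ^ γ := by
        rw [← Real.mul_rpow hM.le (by linarith), ← h3]
      rw [h6]
      have h7 := mul_le_mul_of_nonneg_left h5 (Real.rpow_nonneg hM.le γ)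
      refine h7.trans (le_of_eq ?_)
      rw [Real.rpow_sub_one hM.ne']
      ring
    have h3 : (M : ℝ) ^ γ / γ ≤ ((M : ℝ) + 1) ^ γ / γ - ((M : ℝ) + 1) ^ (γ - 1) := by
      rw [div_le_iff₀ h0, sub_mul, div_mul_cancel₀ _ h0.ne']
      linarith
    push_cast
    linarith

theorem sum_rpow_finset {γ : ℝ} (h0 : 0 < γ) (h1 : γ ≤ 1) (F : Finset ℤ) :
    ∑ h ∈ F, ((h.natAbs : ℝ) + 1) ^ (γ - 1) ≤ (2 / γ + 1) * (F.card : ℝ) ^ γ := by
  classical
  rcases F.eq_empty_or_nonempty with hF | hF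
  · rw [hF, Finset.sum_empty]
    positivity
  obtain ⟨M, hM⟩ : ∃ M : ℕ, M = F.card := ⟨_, rfl⟩
  have hM0 : 0 < M := by
    rw [hM]
    exact hF.card_pos
  have hM1 : (0 : ℝ) < M := by exact_mod_cast hM0
  rw [← hM, ← Finset.sum_filter_add_sum_filter_not F (fun h => h.natAbs < M), add_mul]
  refine add_le_add ?_ ?_
  · have h2 : ∀ h ∈ F.filter (fun h => h.natAbs < M), h.natAbs ∈ range M := by
      intro h hh
      rw [mem_filter] at hh
      exact mem_range.2 hh.2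
    rw [← Finset.sum_fiberwise_of_maps_to h2]
    have h3 : ∀ j ∈ range M, ∑ h ∈ (F.filter (fun h => h.natAbs < M)).filter
        (fun h => h.natAbs = j), ((h.natAbs : ℝ) + 1) ^ (γ - 1) ≤ 2 * ((j : ℝ) + 1) ^ (γ - 1) := by
      intro j _
      have h4 : ∑ h ∈ (F.filter (fun h => h.natAbs < M)).filter
          (fun h => h.natAbs = j), ((h.natAbs : ℝ) + 1) ^ (γ - 1) =
          ∑ h ∈ (F.filter (fun h => h.natAbs < M)).filter
          (fun h => h.natAbs = j), ((j : ℝ) + 1) ^ (γ - 1) := by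
        refine Finset.sum_congr rfl fun h hh => ?_
        rw [mem_filter] at hh
        rw [hh.2]
      rw [h4, Finset.sum_const, nsmul_eq_mul]
      refine mul_le_mul_of_nonneg_right ?_ (by positivity)
      have h5 : (F.filter (fun h => h.natAbs < M)).filter (fun h => h.natAbs = j) ⊆
          {(j : ℤ), -(j : ℤ)} := by
        intro h hh
        rw [mem_filter] at hh
        rw [mem_insert, mem_singleton]
        have := hh.2
        omega
      have h6 := (Finset.card_le_card h5).trans Finset.card_le_two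
      exact_mod_cast h6
    refine (Finset.sum_le_sum h3).trans ?_
    rw [← Finset.mul_sum]
    have h4 := mul_le_mul_of_nonneg_left (sum_rpow_range h0 h1 M) (by norm_num : (0 : ℝ) ≤ 2)
    refine h4.trans (le_of_eq ?_)
    ring
  · have h2 : ∀ h ∈ F.filter (fun h => ¬ h.natAbs < M), ((h.natAbs : ℝ) + 1) ^ (γ - 1) ≤
        (M : ℝ) ^ (γ - 1) := by
      intro h hh
      rw [mem_filter, not_lt] at hh
      refine Real.rpow_le_rpow_of_nonpos hM1 ?_ (by linarith)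
      have h3 : (M : ℝ) ≤ h.natAbs := by exact_mod_cast hh.2
      linarith
    refine (Finset.sum_le_sum h2).trans ?_
    rw [Finset.sum_const, nsmul_eq_mul, one_mul]
    have h3 : ((F.filter (fun h => ¬ h.natAbs < M)).card : ℝ) ≤ M := by
      have := Finset.card_filter_le F (fun h => ¬ h.natAbs < M)
      rw [← hM] at this
      exact_mod_cast this
    refine (mul_le_mul_of_nonneg_right h3 (Real.rpow_nonneg hM1.le _)).trans (le_of_eq ?_)
    rw [Real.rpow_sub_one hM1.ne']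
    field_simp

theorem summable_int_rpow {p : ℝ} (hp : p < -1) :
    Summable fun h : ℤ => ((h.natAbs : ℝ) + 1) ^ p := by
  have h1 : Summable fun n : ℕ => ((n : ℝ) + 1) ^ p := by
    have h2 : Summable fun n : ℕ => (n : ℝ) ^ p := Real.summable_nat_rpow.2 hp
    refine ((summable_nat_add_iff 1).2 h2).congr fun n => ?_
    push_cast
    rfl
  refine Summable.of_nat_of_neg ?_ ?_
  · refine h1.congr fun n => ?_
    rw [Int.natAbs_natCast]
  · refine h1.congr fun n => ?_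
    rw [Int.natAbs_neg, Int.natAbs_natCast]

/-- What we need about `(1 - z) ^ (-1 / k)`. -/
theorem exists_U {β : ℝ} (h0 : 0 < β) (h1 : β < 1 / 4) : ∃ C > 0, ∀ ρ : ℝ, 0 ≤ ρ → ρ < 1 →
    Lam (2 * β) (fun θ => ((sqm (B β) ρ θ : ℝ) : ℂ)) C ∧
      (2 * Real.pi)⁻¹ * ∫ θ in (0 : ℝ)..(2 * Real.pi), ‖((sqm (B β) ρ θ : ℝ) : ℂ)‖ ^ 2 ≤ C := by
  obtain ⟨C, hC, h2⟩ := fc_B_bound h0 (by linarith)
  have hs := summable_int_rpow (by linarith : 4 * β - 2 < -1)
  have hS0 : 0 ≤ ∑' h : ℤ, C ^ 2 * ((h.natAbs : ℝ) + 1) ^ (4 * β - 2) :=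
    tsum_nonneg fun h => by positivity
  refine ⟨C * (2 / (2 * β) + 1) + ∑' h : ℤ, C ^ 2 * ((h.natAbs : ℝ) + 1) ^ (4 * β - 2),
    by positivity, fun ρ hρ0 hρ1 => ⟨?_, ?_⟩⟩
  · intro F
    have h3 : ∑ h ∈ F, ‖fc (fun θ => ((sqm (B β) ρ θ : ℝ) : ℂ)) h‖ ≤
        C * (2 / (2 * β) + 1) * (F.card : ℝ) ^ (2 * β) := by
      refine (Finset.sum_le_sum fun h _ => h2 ρ hρ0 hρ1 h).trans ?_
      rw [← Finset.mul_sum, mul_assoc]
      exact mul_le_mul_of_nonneg_left (sum_rpow_finset (by linarith) (by linarith) F) hC.le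
    refine h3.trans (mul_le_mul_of_nonneg_right ?_ (by positivity))
    linarith
  · have hcont : Continuous fun θ => ((sqm (B β) ρ θ : ℝ) : ℂ) :=
      Complex.continuous_ofReal.comp (continuous_sqm hρ0 (absConv_B h0 (by linarith) hρ0 hρ1))
    have h3 := hasSum_sq_fc hcont
    rw [← h3.tsum_eq]
    have h4 : ∀ h : ℤ, ‖fc (fun θ => ((sqm (B β) ρ θ : ℝ) : ℂ)) h‖ ^ 2 ≤
        C ^ 2 * ((h.natAbs : ℝ) + 1) ^ (4 * β - 2) := by
      intro h
      have hh : (0 : ℝ) < (h.natAbs : ℝ) + 1 := by positivity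
      refine (pow_le_pow_left₀ (norm_nonneg _) (h2 ρ hρ0 hρ1 h) 2).trans (le_of_eq ?_)
      rw [mul_pow, ← Real.rpow_natCast (((h.natAbs : ℝ) + 1) ^ (2 * β - 1)) 2,
        ← Real.rpow_mul hh.le]
      congr 2
      push_cast
      ring
    have h5 := h3.summable.tsum_le_tsum h4 (hs.mul_left _)
    have h6 : 0 ≤ C * (2 / (2 * β) + 1) := by positivity
    linarith

end Pool.Agent.H65.CP
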