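import Pool.Agent.H65.CP.Jack
import Pool.Agent.H65.CP.UBd

/-!
# The main inequality
-/

open Finset MeasureTheory PowerSeries
open Pool.Agent.H99.Inc Pool.Agent.H99.Jump

namespace Pool.Agent.H65.CP

/-- The generating series of `A`. -/
noncomputable def fA (A : Set ℕ) : PowerSeries ℝ := S (ind A) 1

/-- The series of the increments. -/
noncomputable def dA (A : Set ℕ) (k : ℕ) : PowerSeries ℝ := (1 - X) * fA A ^ k

theorem coeff_dA (A : Set ℕ) (k n : ℕ) : coeff n (dA A k) = inc A k n := by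
  rw [dA, fA, sub_mul, one_mul, map_sub, coeff_pow_S, inc]
  congr 1
  rcases n with _ | n
  · simp
  · rw [coeff_succ_X_mul, coeff_pow_S]
    simp

theorem B_pow' (β : ℝ) (m : ℕ) : B β ^ m = B (m * β) := by
  induction m with
  | zero => rw [pow_zero, Nat.cast_zero, zero_mul, B_zero]
  | succ m ih =>
    rw [pow_succ, ih, B_mul]
    congr 1
    push_cast
    ring

theorem fA_pow (A : Set ℕ) {k : ℕ} (hk : 1 ≤ k) : fA A ^ k = dA A k * B (1 / k) ^ k := by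
  have h2 : B (1 / (k : ℝ)) ^ k = B 1 := by
    rw [B_pow']
    congr 1
    have : (k : ℝ) ≠ 0 := by
      rw [Nat.cast_ne_zero]
      omega
    field_simp
  have h3 : (1 - X : PowerSeries ℝ) * B 1 = 1 := by
    rw [← B_neg_one, B_mul, neg_add_cancel, B_zero]
  rw [h2, dA, mul_comm (1 - X) (fA A ^ k), mul_assoc, h3, mul_one]

theorem absConv_dA (A : Set ℕ) (k : ℕ) {ρ : ℝ} (h0 : 0 ≤ ρ) (h1 : ρ < 1) :
    AbsConv (dA A k) ρ := by
  have h2 : AbsConv (1 - X : PowerSeries ℝ) ρ := by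
    unfold AbsConv
    refine Summable.of_nonneg_of_le (fun n => by positivity) (fun n => ?_)
      (summable_geometric_of_lt_one h0 h1)
    refine mul_le_of_le_one_left (pow_nonneg h0 n) ?_
    rw [map_sub, coeff_one, coeff_X]
    rcases n with _ | _ | n <;> simp
  exact AbsConv.mul h0 h2 (absConv_pow h0 (absConv_ind A h0 h1) k).1

theorem cir_pow {f : PowerSeries ℝ} {ρ : ℝ} (h0 : 0 ≤ ρ) (hf : AbsConv f ρ) (θ : ℝ) (m : ℕ)
    (hm : 1 ≤ m) : cir (f ^ m) ρ θ = cir f ρ θ ^ m := by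
  have hz : ‖(ρ : ℂ) * Complex.exp (θ * Complex.I)‖ ≤ ρ := (norm_circle h0 θ).le
  induction m, hm using Nat.le_induction with
  | base => rw [pow_one, pow_one]
  | succ m _ ih =>
    rw [pow_succ, pow_succ, cir, ev_mul h0 (absConv_pow h0 hf m).1 hf hz, ← ih]
    rfl

/-- The identity between the moduli. -/
theorem sqm_pow (A : Set ℕ) {k : ℕ} (hk : 1 ≤ k) {ρ : ℝ} (h0 : 0 ≤ ρ) (h1 : ρ < 1) (θ : ℝ) :
    sqm (fA A) ρ θ ^ k = sqm (dA A k) ρ θ * sqm (B (1 / k)) ρ θ ^ k := by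
  have hk1 : (1 : ℝ) ≤ k := by exact_mod_cast hk
  have hk0 : (0 : ℝ) < k := by linarith
  have hB : AbsConv (B (1 / (k : ℝ))) ρ :=
    absConv_B (by positivity) (by rw [div_le_one hk0]; exact hk1) h0 h1
  have hz : ‖(ρ : ℂ) * Complex.exp (θ * Complex.I)‖ ≤ ρ := (norm_circle h0 θ).le
  have h2 : cir (fA A) ρ θ ^ k = cir (dA A k) ρ θ * cir (B (1 / k)) ρ θ ^ k := by
    rw [← cir_pow h0 (show AbsConv (fA A) ρ from absConv_ind A h0 h1) θ k hk, fA_pow A hk, cir,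
      ev_mul h0 (absConv_dA A k h0 h1) (absConv_pow h0 hB k).1 hz]
    congr 1
    exact cir_pow h0 hB θ k hk
  have h3 := congrArg norm h2
  rw [norm_pow, norm_mul, norm_pow] at h3
  rw [sqm, sqm, sqm, pow_right_comm, h3, mul_pow, pow_right_comm]

theorem sqm_eq (A : Set ℕ) {k : ℕ} (hk : 1 ≤ k) {ρ : ℝ} (h0 : 0 ≤ ρ) (h1 : ρ < 1) {T : ℝ}
    (hT : 0 < T) (θ : ℝ) :
    sqm (fA A) ρ θ = T ^ (2 * (1 / (k : ℝ))) * (sqm (dA A k) ρ θ / T ^ 2) ^ (1 / (k : ℝ)) *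
      sqm (B (1 / k)) ρ θ := by
  have hk0 : k ≠ 0 := by omega
  have h2 := sqm_pow A hk h0 h1 θ
  have hd := sqm_nonneg (dA A k) ρ θ
  have hu := sqm_nonneg (B (1 / k)) ρ θ
  have hf := sqm_nonneg (fA A) ρ θ
  have h3 : sqm (fA A) ρ θ = (sqm (fA A) ρ θ ^ k) ^ (1 / (k : ℝ)) := by
    rw [one_div, Real.pow_rpow_inv_natCast hf hk0]
  have h4 : sqm (B (1 / k)) ρ θ = (sqm (B (1 / k)) ρ θ ^ k) ^ (1 / (k : ℝ)) := by
    rw [one_div, Real.pow_rpow_inv_natCast (by rwa [one_div] at hu) hk0]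
  have h5 : T ^ (2 * (1 / (k : ℝ))) * (sqm (dA A k) ρ θ / T ^ 2) ^ (1 / (k : ℝ)) =
      sqm (dA A k) ρ θ ^ (1 / (k : ℝ)) := by
    have h6 : T ^ (2 * (1 / (k : ℝ))) = (T ^ 2) ^ (1 / (k : ℝ)) := by
      rw [Real.rpow_mul hT.le]
      congr 1
      rw [← Real.rpow_natCast]
      norm_num
    rw [h6, ← Real.mul_rpow (by positivity) (by positivity)]
    congr 1
    field_simp
  rw [h5, h3, h2, Real.mul_rpow hd (pow_nonneg hu k), ← h4]

theorem sqm_le {f : PowerSeries ℝ} {ρ T : ℝ} (h0 : 0 ≤ ρ) (hf : AbsConv f ρ)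
    (hT : ∑' n, |coeff n f| * ρ ^ n ≤ T) (θ : ℝ) : sqm f ρ θ ≤ T ^ 2 := by
  refine pow_le_pow_left₀ (norm_nonneg _) ?_ 2
  have h1 := hasSum_cir h0 hf θ
  have hf' : Summable fun n => |coeff n f| * ρ ^ n := hf
  rw [← h1.tsum_eq]
  have h2 : ∀ n : ℕ, ‖((coeff n f * ρ ^ n : ℝ) : ℂ) * ex n θ‖ = |coeff n f| * ρ ^ n := by
    intro n
    rw [norm_mul, norm_ex, mul_one, Complex.norm_real, norm_mul, norm_pow, Real.norm_eq_abs,
      Real.norm_of_nonneg h0]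
  refine (norm_tsum_le_tsum_norm (by simpa only [h2] using hf')).trans ?_
  simp only [h2]
  exact hT

/-- The elements of `A` which are at most `N`. -/
noncomputable def AN (A : Set ℕ) (N : ℕ) : Finset ℕ := by
  classical exact (range (N + 1)).filter (fun a => a ∈ A)

theorem mem_AN {A : Set ℕ} {N a : ℕ} : a ∈ AN A N ↔ a ≤ N ∧ a ∈ A := by
  classical
  rw [AN, mem_filter, mem_range, Nat.lt_succ_iff]

theorem wt_fA_nonneg (A : Set ℕ) {ρ : ℝ} (h0 : 0 ≤ ρ) (x : ℕ × ℕ) : 0 ≤ wt (fA A) ρ x := by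
  rw [wt, fA, coeff_S_ind, coeff_S_ind]
  have h1 := ind_nonneg A x.1
  have h2 := ind_nonneg A x.2
  positivity

theorem wt_fA_ge {A : Set ℕ} {N : ℕ} {ρ : ℝ} (h0 : 0 ≤ ρ) (h1 : ρ ≤ 1) {x : ℕ × ℕ}
    (hx1 : x.1 ∈ AN A N) (hx2 : x.2 ∈ AN A N) : ρ ^ (2 * N) ≤ wt (fA A) ρ x := by
  rw [mem_AN] at hx1 hx2
  rw [wt, fA, coeff_S_ind, coeff_S_ind]
  have e1 : ind A x.1 = 1 := by
    unfold ind
    rw [if_pos hx1.2]
  have e2 : ind A x.2 = 1 := by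
    unfold ind
    rw [if_pos hx2.2]
  rw [e1, e2, one_mul, one_mul, ← pow_add]
  exact pow_le_pow_of_le_one h0 h1 (by omega)

/-- The Fourier coefficients of `sqm (fA A)`. -/
theorem fc_fA (A : Set ℕ) {ρ : ℝ} (h0 : 0 ≤ ρ) (h1 : ρ < 1) (h : ℤ) :
    ∃ r : ℝ, fc (fun θ => ((sqm (fA A) ρ θ : ℝ) : ℂ)) h = (r : ℂ) ∧ 0 ≤ r ∧
      ∀ P : Finset (ℕ × ℕ), ∑ x ∈ P, (if fr x = h then wt (fA A) ρ x else 0) ≤ r := by
  have h2 := fc_sqm h0 (absConv_ind A h0 h1) h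
  have h3 : (fun x : ℕ × ℕ => if fr x = h then ((wt (S (ind A) 1) ρ x : ℝ) : ℂ) else 0) =
      fun x : ℕ × ℕ => (((if fr x = h then wt (fA A) ρ x else 0 : ℝ)) : ℂ) := by
    funext x
    split_ifs
    · rfl
    · simp
  rw [h3] at h2
  have h4 : Summable fun x : ℕ × ℕ => (if fr x = h then wt (fA A) ρ x else 0 : ℝ) :=
    Complex.summable_ofReal.1 h2.summable
  have h5 := Complex.hasSum_ofReal.2 h4.hasSum
  have hn : ∀ x : ℕ × ℕ, 0 ≤ (if fr x = h then wt (fA A) ρ x else 0 : ℝ) := by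
    intro x
    split_ifs
    · exact wt_fA_nonneg A h0 x
    · exact le_rfl
  refine ⟨_, h2.unique h5, tsum_nonneg hn, fun P => ?_⟩
  exact h4.sum_le_tsum P fun x _ => hn x

/-- The splitting of the Fourier coefficients. -/
theorem core (A : Set ℕ) {k : ℕ} (hk : 5 ≤ k) {ρ : ℝ} (h0 : 0 ≤ ρ) (h1 : ρ < 1) {N : ℕ}
    (hκ : 1 / 16 ≤ ρ ^ (2 * N)) {K : ℕ} (hK : 1 ≤ K) {T : ℝ} (hT : 0 < T)
    (hT1 : ∑' n, |inc A k n| * ρ ^ n ≤ T) {C : ℝ} (hC : 0 < C)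
    (hU1 : Lam (2 * (1 / (k : ℝ))) (fun θ => ((sqm (B (1 / k)) ρ θ : ℝ) : ℂ)) C)
    (hU2 : (2 * Real.pi)⁻¹ * ∫ θ in (0 : ℝ)..(2 * Real.pi),
      ‖((sqm (B (1 / k)) ρ θ : ℝ) : ℂ)‖ ^ 2 ≤ C) :
    ∃ m : ℕ, (m : ℝ) / 32 ≤ T ^ (2 * (1 / (k : ℝ))) * (2 * K * 7 ^ (2 * K) * C) *
        (m : ℝ) ^ (2 * (1 / (k : ℝ))) ∧
      ((AN A N).card : ℝ) ^ 2 / 16 ≤
        64 * (T ^ (2 * (1 / (k : ℝ))) * (2 / (K : ℝ) ^ 2) ^ (1 / (k : ℝ))) ^ 2 * C +
          Real.sqrt (m * ((T ^ (2 * (1 / (k : ℝ)))) ^ 2 * C)) := by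
  classical
  have hk1 : (5 : ℝ) ≤ k := by exact_mod_cast hk
  have hk0 : (0 : ℝ) < k := by linarith
  obtain ⟨β, hβ⟩ : ∃ β : ℝ, β = 1 / (k : ℝ) := ⟨_, rfl⟩
  have hβ0 : 0 < β := by rw [hβ]; positivity
  have hβ1 : β ≤ 1 / 5 := by
    rw [hβ]
    exact one_div_le_one_div_of_le (by norm_num) hk1
  have hBA : AbsConv (B β) ρ := absConv_B hβ0 (by linarith) h0 h1
  have hdA := absConv_dA A k h0 h1
  have hfA : AbsConv (fA A) ρ := absConv_ind A h0 h1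
  have heq := fun θ => sqm_eq A (by omega : 1 ≤ k) h0 h1 hT θ
  rw [← hβ] at hU1 hU2 heq ⊢
  obtain ⟨W, hW⟩ : ∃ W : ℝ, W = T ^ (2 * β) := ⟨_, rfl⟩
  have hW0 : 0 < W := by rw [hW]; exact Real.rpow_pos_of_pos hT _
  rw [← hW] at heq ⊢
  -- the function `s`
  obtain ⟨s, hs⟩ : ∃ s : ℝ → ℝ, s = fun θ => sqm (dA A k) ρ θ / T ^ 2 := ⟨_, rfl⟩
  have hsc : Continuous s := by
    rw [hs]
    exact (continuous_sqm h0 hdA).div_const _
  have hs0 : ∀ θ, 0 ≤ s θ := by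
    intro θ
    rw [hs]
    exact div_nonneg (sqm_nonneg _ _ _) (sq_nonneg _)
  have hs1 : ∀ θ, s θ ≤ 1 := by
    intro θ
    rw [hs]
    simp only []
    rw [div_le_one (by positivity)]
    exact sqm_le h0 hdA (by simpa only [coeff_dA] using hT1) θ
  have hseries : ∀ θ, HasSum (fun x : ℕ × ℕ => (((wt (dA A k) ρ x : ℝ) : ℂ) / ((T ^ 2 : ℝ) : ℂ)) *
      ex (fr x) θ) ((s θ : ℝ) : ℂ) := by
    intro θ
    have h2 := (hasSum_sqm h0 hdA θ).div_const ((T ^ 2 : ℝ) : ℂ)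
    have h3 : (fun x : ℕ × ℕ => ((wt (dA A k) ρ x : ℝ) : ℂ) * ex (fr x) θ / ((T ^ 2 : ℝ) : ℂ)) =
        fun x : ℕ × ℕ => (((wt (dA A k) ρ x : ℝ) : ℂ) / ((T ^ 2 : ℝ) : ℂ)) * ex (fr x) θ := by
      funext x
      ring
    rw [h3] at h2
    rw [hs]
    push_cast at h2 ⊢
    exact h2
  have hnw : ∀ x : ℕ × ℕ, ‖((wt (dA A k) ρ x : ℝ) : ℂ) / ((T ^ 2 : ℝ) : ℂ)‖ =
      ‖((wt (dA A k) ρ x : ℝ) : ℂ)‖ / T ^ 2 := by
    intro x
    rw [norm_div, Complex.norm_real (T ^ 2), Real.norm_of_nonneg (by positivity)]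
  have hws : Summable fun x : ℕ × ℕ => ‖((wt (dA A k) ρ x : ℝ) : ℂ) / ((T ^ 2 : ℝ) : ℂ)‖ := by
    simp only [hnw]
    exact (summable_wt h0 hdA).div_const _
  have hw1 : ∑' x : ℕ × ℕ, ‖((wt (dA A k) ρ x : ℝ) : ℂ) / ((T ^ 2 : ℝ) : ℂ)‖ ≤ 1 := by
    simp only [hnw]
    rw [tsum_div_const, tsum_wt h0 hdA, div_le_one (by positivity)]
    refine pow_le_pow_left₀ (tsum_nonneg fun n => by positivity) ?_ 2
    simpa only [coeff_dA] using hT1
  -- the polynomial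
  obtain ⟨ι, hι, c, n, hn, hc, hq⟩ := jackson hK hβ0 (by linarith : β ≤ 1 / 2)
  obtain ⟨δ, hδ⟩ : ∃ δ : ℝ, δ = (2 / (K : ℝ) ^ 2) ^ β := ⟨_, rfl⟩
  have hK0 : (0 : ℝ) < K := by exact_mod_cast hK
  have hδ0 : 0 ≤ δ := by rw [hδ]; positivity
  rw [← hδ] at hq ⊢
  obtain ⟨u, hu⟩ : ∃ u : ℝ → ℝ, u = sqm (B β) ρ := ⟨_, rfl⟩
  have huc : Continuous u := by rw [hu]; exact continuous_sqm h0 hBA
  have hu0 : ∀ θ, 0 ≤ u θ := fun θ => by rw [hu]; exact sqm_nonneg _ _ _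
  rw [← hu] at hU1 hU2 heq
  obtain ⟨p, hp⟩ : ∃ p : ℝ → ℂ, p = fun θ => ((W : ℝ) : ℂ) * ∑ i, ((c i : ℝ) : ℂ) *
      (((ch (n i) (1 - 2 * s θ) : ℝ) : ℂ) * ((u θ : ℝ) : ℂ)) := ⟨_, rfl⟩
  have huC : Continuous fun θ => ((u θ : ℝ) : ℂ) := Complex.continuous_ofReal.comp huc
  have hterm : ∀ i, Continuous fun θ => ((c i : ℝ) : ℂ) *
      (((ch (n i) (1 - 2 * s θ) : ℝ) : ℂ) * ((u θ : ℝ) : ℂ)) := fun i =>
    continuous_const.mul ((Complex.continuous_ofReal.comp ((continuous_ch _).comp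
      (continuous_const.sub (continuous_const.mul hsc)))).mul huC)
  have hpc : Continuous p := by
    rw [hp]
    exact continuous_const.mul (continuous_finsetSum _ fun i _ => hterm i)
  have hpL : Lam (2 * β) p (W * (2 * K * 7 ^ (2 * K) * C)) := by
    have h2 := Lam.sum (γ := 2 * β) (Finset.univ : Finset ι)
      (G := fun i θ => ((c i : ℝ) : ℂ) *
        (((ch (n i) (1 - 2 * s θ) : ℝ) : ℂ) * ((u θ : ℝ) : ℂ)))
      (L := fun i => ‖((c i : ℝ) : ℂ)‖ * (7 ^ n i * C)) (fun i _ => hterm i)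
      (fun i _ => (Lam.ch hws hw1 hsc huC hseries hU1 (n i)).const_mul _)
    have h3 := h2.const_mul ((W : ℝ) : ℂ)
    rw [hp]
    refine h3.mono ?_
    rw [Complex.norm_real, Real.norm_of_nonneg hW0.le]
    refine mul_le_mul_of_nonneg_left ?_ hW0.le
    have h4 : ∀ i ∈ (Finset.univ : Finset ι), ‖((c i : ℝ) : ℂ)‖ * (7 ^ n i * C) ≤
        |c i| * (7 ^ (2 * K) * C) := by
      intro i _
      rw [Complex.norm_real, Real.norm_eq_abs]
      refine mul_le_mul_of_nonneg_left ?_ (abs_nonneg _)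
      refine mul_le_mul_of_nonneg_right ?_ hC.le
      exact pow_le_pow_right₀ (by norm_num) (hn i).le
    refine (Finset.sum_le_sum h4).trans ?_
    rw [← Finset.sum_mul]
    refine (mul_le_mul_of_nonneg_right hc (by positivity)).trans (le_of_eq ?_)
    ring
  -- the error
  obtain ⟨F, hF⟩ : ∃ F : ℝ → ℂ, F = fun θ => ((sqm (fA A) ρ θ : ℝ) : ℂ) := ⟨_, rfl⟩
  have hFc : Continuous F := by
    rw [hF]
    exact Complex.continuous_ofReal.comp (continuous_sqm h0 hfA)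
  obtain ⟨e, he⟩ : ∃ e : ℝ → ℂ, e = fun θ => F θ + (-1 : ℂ) * p θ := ⟨_, rfl⟩
  have hec : Continuous e := by
    rw [he]
    exact hFc.add (continuous_const.mul hpc)
  have hee : ∀ θ, ‖e θ‖ ≤ (W * δ) * ‖((u θ : ℝ) : ℂ)‖ := by
    intro θ
    have h2 : e θ = ((W * (s θ ^ β - ∑ i, c i * ch (n i) (1 - 2 * s θ)) * u θ : ℝ) : ℂ) := by
      rw [he, hF, hp]
      simp only []
      rw [heq θ]
      have h3 : s θ = sqm (dA A k) ρ θ / T ^ 2 := by rw [hs]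
      rw [← h3]
      have h4 : ∑ i, ((c i : ℝ) : ℂ) * (((ch (n i) (1 - 2 * s θ) : ℝ) : ℂ) * ((u θ : ℝ) : ℂ)) =
          (∑ i, ((c i : ℝ) : ℂ) * ((ch (n i) (1 - 2 * s θ) : ℝ) : ℂ)) * ((u θ : ℝ) : ℂ) := by
        rw [Finset.sum_mul]
        refine Finset.sum_congr rfl fun i _ => ?_
        ring
      rw [h4]
      push_cast
      ring
    rw [h2, Complex.norm_real, Complex.norm_real, norm_mul, norm_mul, Real.norm_of_nonneg hW0.le]
    refine mul_le_mul_of_nonneg_right ?_ (norm_nonneg _)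
    refine mul_le_mul_of_nonneg_left ?_ hW0.le
    exact hq (s θ) (hs0 θ) (hs1 θ)
  have hFu : ∀ θ, ‖F θ‖ ≤ W * ‖((u θ : ℝ) : ℂ)‖ := by
    intro θ
    rw [hF]
    simp only []
    rw [Complex.norm_real, Complex.norm_real, heq θ, norm_mul, norm_mul,
      Real.norm_of_nonneg hW0.le]
    refine mul_le_mul_of_nonneg_right ?_ (norm_nonneg _)
    refine mul_le_of_le_one_right hW0.le ?_
    have h3 : s θ = sqm (dA A k) ρ θ / T ^ 2 := by rw [hs]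
    rw [← h3, Real.norm_of_nonneg (Real.rpow_nonneg (hs0 θ) _)]
    exact Real.rpow_le_one (hs0 θ) (hs1 θ) hβ0.le
  have hB1 : ∀ G : Finset ℤ, ∑ h ∈ G, ‖fc e h‖ ^ 2 ≤ (W * δ) ^ 2 * C := fun G =>
    (sum_sq_fc_le hec G).trans ((integral_sq_mono hec huC hee).trans
      (mul_le_mul_of_nonneg_left hU2 (sq_nonneg _)))
  have hB2 : ∀ G : Finset ℤ, ∑ h ∈ G, ‖fc F h‖ ^ 2 ≤ W ^ 2 * C := fun G =>
    (sum_sq_fc_le hFc G).trans ((integral_sq_mono hFc huC hFu).trans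
      (mul_le_mul_of_nonneg_left hU2 (sq_nonneg _)))
  -- the coefficients of `F`
  choose r hr hr0 hrP using fun h : ℤ => fc_fA A h0 h1 h
  rw [← hF] at hr
  obtain ⟨P, hP⟩ : ∃ P : Finset (ℕ × ℕ), P = AN A N ×ˢ AN A N := ⟨_, rfl⟩
  obtain ⟨Q, hQ⟩ : ∃ Q : Finset ℤ, Q = P.image fr := ⟨_, rfl⟩
  have hPw : ∀ x ∈ P, 1 / 16 ≤ wt (fA A) ρ x := by
    intro x hx
    rw [hP, Finset.mem_product] at hx
    exact hκ.trans (wt_fA_ge h0 h1.le hx.1 hx.2)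
  have hsum : ((AN A N).card : ℝ) ^ 2 / 16 ≤ ∑ h ∈ Q, r h := by
    have h2 : ∑ h ∈ Q, ∑ x ∈ P, (if fr x = h then wt (fA A) ρ x else 0) ≤ ∑ h ∈ Q, r h :=
      Finset.sum_le_sum fun h _ => hrP h P
    refine le_trans ?_ h2
    rw [Finset.sum_comm]
    have h3 : ∀ x ∈ P, (1 / 16 : ℝ) ≤ ∑ h ∈ Q, (if fr x = h then wt (fA A) ρ x else 0) := by
      intro x hx
      rw [Finset.sum_ite_eq Q (fr x) (fun _ => wt (fA A) ρ x), if_pos]
      · exact hPw x hx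
      · rw [hQ]
        exact Finset.mem_image_of_mem _ hx
    refine le_trans (le_of_eq ?_) (Finset.sum_le_sum h3)
    rw [Finset.sum_const, nsmul_eq_mul, hP, Finset.card_product]
    push_cast
    ring
  have hrQ : ∀ h ∈ Q, 1 / 16 ≤ r h := by
    intro h hh
    rw [hQ, Finset.mem_image] at hh
    obtain ⟨x, hx, hxh⟩ := hh
    refine (hPw x hx).trans ?_
    have h2 := hrP h {x}
    rw [Finset.sum_singleton, if_pos hxh] at h2
    exact h2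
  -- the splitting
  obtain ⟨Q1, hQ1⟩ : ∃ Q1 : Finset ℤ, Q1 = Q.filter (fun h => 1 / 32 ≤ ‖fc p h‖) := ⟨_, rfl⟩
  obtain ⟨Q2, hQ2⟩ : ∃ Q2 : Finset ℤ, Q2 = Q.filter (fun h => ¬ 1 / 32 ≤ ‖fc p h‖) := ⟨_, rfl⟩
  refine ⟨Q1.card, ?_, ?_⟩
  · have h2 := hpL Q1
    refine le_trans ?_ h2
    have h3 : ∑ h ∈ Q1, (1 / 32 : ℝ) ≤ ∑ h ∈ Q1, ‖fc p h‖ := by
      refine Finset.sum_le_sum fun h hh => ?_
      rw [hQ1, mem_filter] at hh
      exact hh.2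
    rw [Finset.sum_const, nsmul_eq_mul, mul_one_div] at h3
    exact h3
  · refine hsum.trans ?_
    rw [← Finset.sum_filter_add_sum_filter_not Q (fun h => 1 / 32 ≤ ‖fc p h‖), ← hQ1, ← hQ2,
      add_comm]
    refine add_le_add ?_ ?_
    · have h2 : ∀ h ∈ Q2, r h ≤ 64 * ‖fc e h‖ ^ 2 := by
        intro h hh
        rw [hQ2, mem_filter, not_le] at hh
        have h3 := hrQ h hh.1
        have h4 : r h ≤ ‖fc e h‖ + ‖fc p h‖ := by
          have h5 : fc e h = fc F h + (-1) * fc p h := by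
            rw [he, fc_add (g' := fun θ => (-1 : ℂ) * p θ) hFc (continuous_const.mul hpc),
              fc_const_mul]
          have h6 : fc F h = fc e h + fc p h := by
            rw [h5]
            ring
          have h7 : ‖fc F h‖ = r h := by
            rw [hr h, Complex.norm_real, Real.norm_of_nonneg (hr0 h)]
          rw [← h7, h6]
          exact norm_add_le _ _
        have h5 := hh.2
        have h6 : r h ≤ 2 * ‖fc e h‖ := by linarith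
        have h7 : (r h) ^ 2 ≤ (2 * ‖fc e h‖) ^ 2 := pow_le_pow_left₀ (hr0 h) h6 2
        nlinarith
      refine (Finset.sum_le_sum h2).trans ?_
      rw [← Finset.mul_sum, mul_assoc]
      exact mul_le_mul_of_nonneg_left (hB1 Q2) (by norm_num)
    · refine Real.le_sqrt_of_sq_le ?_
      refine (sq_sum_le_card_mul_sum_sq).trans ?_
      refine mul_le_mul_of_nonneg_left ?_ (Nat.cast_nonneg _)
      refine le_trans (le_of_eq ?_) (hB2 Q1)
      refine Finset.sum_congr rfl fun h _ => ?_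
      rw [hr h, Complex.norm_real, Real.norm_of_nonneg (hr0 h)]

end Pool.Agent.H65.CP
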